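import Pool.Agent.Q79.C3.An2
import Pool.Agent.H952R2.Sextic.CommonZero
import Pool.Agent.Y246.C3.Cb
import Pool.Agent.Y201.LI.Stm2

/-! # Project C3, jobs ETA and ANI -/

set_option autoImplicit false

namespace Pool.Agent.Q79.C3

open MvPolynomial Pool.Agent.Y201.C3 Pool.Agent.Y246.C3

noncomputable section

theorem ev_ae {σ : Type} (b : σ → ℂ) (p : MvPolynomial σ ℂ) : eval b p = aeval b p := by
  rw [MvPolynomial.aeval_def, MvPolynomial.eval₂_eq_eval_map]
  simp

theorem eta : S_ETA := by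
  classical
  intro A hA hA0
  have hAs : ∀ i j, A i j = A j i := fun i j => hA.apply j i
  obtain ⟨x, hx0, hx⟩ := Pool.Agent.H952R2.Sextic.exists_common_zero (K := ℂ)
    (ι := Fin 4 ⊕ Fin 3) (κ := {p : Fin 3 × Fin 3 // p.1 ≤ p.2}) (by decide)
    (fun p => rename Sum.inl (A p.1.1 p.1.2) - X (Sum.inr p.1.1) * X (Sum.inr p.1.2)) (by
      rintro ⟨⟨i, j⟩, _⟩
      have h1 : eval (0 : Fin 4 ⊕ Fin 3 → ℂ) (rename Sum.inl (A i j)) = 0 := by
        rw [eval_rename]
        exact hA0 i j
      change eval (0 : Fin 4 ⊕ Fin 3 → ℂ) (rename Sum.inl (A i j) -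
        X (Sum.inr i) * X (Sum.inr j)) = 0
      rw [map_sub, h1, map_mul, eval_X, Pi.zero_apply, zero_mul, sub_zero])
  have h1 : ∀ i j : Fin 3, i ≤ j → eval (x ∘ Sum.inl) (A i j) = x (Sum.inr i) * x (Sum.inr j) := by
    intro i j hij
    have := hx ⟨(i, j), hij⟩
    simp only [map_sub, map_mul, eval_rename, eval_X] at this
    exact sub_eq_zero.1 this
  have h2 : ∀ i j : Fin 3, eval (x ∘ Sum.inl) (A i j) = x (Sum.inr i) * x (Sum.inr j) := by
    intro i j
    rcases le_total i j with h | h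
    · exact h1 i j h
    · rw [hAs, h1 j i h, mul_comm]
  refine ⟨x ∘ Sum.inl, ?_, ?_⟩
  · intro h0
    apply hx0
    funext s
    rcases s with s | s
    · exact congrFun h0 s
    · have h3 := h2 s s
      rw [h0, hA0] at h3
      exact mul_self_eq_zero.1 h3.symm
  · intro i j k l
    rw [h2, h2, h2, h2]
    ring

theorem Bf_zero1 {T : Fin 6 → Fin 6 → Fin 6 → ℂ} {R : Type} [CommRing R] [Algebra ℂ R]
    (y z : Fin 6 → R) : Bf T (fun _ => 0) y z = 0 := by
  unfold Bf
  simp

theorem pderiv_Bf {T : Fin 6 → Fin 6 → Fin 6 → ℂ} (l : Fin 4) (x y z : Fin 6 → R4) :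
    pderiv l (Bf T x y z) = Bf T (fun i => pderiv l (x i)) y z + Bf T x (fun i => pderiv l (y i)) z +
      Bf T x y (fun i => pderiv l (z i)) := by
  unfold Bf
  simp only [map_sum, ← Finset.sum_add_distrib]
  refine Finset.sum_congr rfl fun i _ => Finset.sum_congr rfl fun j _ =>
    Finset.sum_congr rfl fun k _ => ?_
  simp only [Derivation.leibniz, smul_eq_mul, Derivation.map_algebraMap]
  ring

/-- the vector `(0, 0, η)` -/
def vy (η : Fin 4 → ℂ) : Fin 6 → ℂ := ![0, 0, η 0, η 1, η 2, η 3]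

theorem eval_yy (η : Fin 4 → ℂ) : (fun i => aeval η (yy i)) = vy η := by
  funext i
  fin_cases i <;> simp [yy, vy]

theorem pderiv_E (l : Fin 4) (i : Fin 6) : (fun j => pderiv l ((E i : Fin 6 → R4) j)) =
    fun _ => 0 := by
  funext j
  unfold E
  by_cases h : j = i
  · subst h
    rw [Pi.single_eq_same]
    simp
  · rw [Pi.single_eq_of_ne h, map_zero]

theorem pderiv_yy (l : Fin 4) : (fun j => pderiv l (yy j)) =
    (E (⟨l.val + 2, by omega⟩ : Fin 6) : Fin 6 → R4) := by
  funext j
  unfold E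
  fin_cases l <;> fin_cases j <;> simp [yy, pderiv_X]

theorem Bf_PP {T : Fin 6 → Fin 6 → Fin 6 → ℂ} (hT : SymT T) (u : Fin 3 → ℂ) (y e : Fin 6 → ℂ) :
    Bf T (fun i => u 0 * E 0 i + (u 1 * E 1 i + u 2 * y i))
      (fun i => u 0 * E 0 i + (u 1 * E 1 i + u 2 * y i)) e =
      u 0 ^ 2 * Bf T (E 0) (E 0) e + 2 * u 0 * u 1 * Bf T (E 0) (E 1) e +
      u 1 ^ 2 * Bf T (E 1) (E 1) e + 2 * u 0 * u 2 * Bf T (E 0) y e +
      2 * u 1 * u 2 * Bf T (E 1) y e + u 2 ^ 2 * Bf T y y e := by
  rw [Bf_add1, Bf_add1, Bf_smul1, Bf_smul1, Bf_smul1]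
  have h : ∀ x : Fin 6 → ℂ, Bf T x (fun i => u 0 * E 0 i + (u 1 * E 1 i + u 2 * y i)) e =
      u 0 * Bf T x (E 0) e + (u 1 * Bf T x (E 1) e + u 2 * Bf T x y e) := by
    intro x
    rw [Bf_add2 hT, Bf_add2 hT, Bf_smul2 hT, Bf_smul2 hT, Bf_smul2 hT]
  rw [h, h, h, Bf_comm12 hT (E 1) (E 0), Bf_comm12 hT y (E 0), Bf_comm12 hT y (E 1)]
  ring

theorem Bf_EPP {T : Fin 6 → Fin 6 → Fin 6 → ℂ} (i : Fin 6) (P : Fin 6 → ℂ) :
    Bf T (E i) P P = ∑ j, ∑ k, T i j k * P j * P k := by
  unfold Bf E
  rw [Finset.sum_eq_single i]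
  · simp
  · intro j _ hj
    simp [Pi.single_eq_of_ne hj]
  · intro h
    exact absurd (Finset.mem_univ _) h

theorem ani2 : Pool.Agent.Y201.LI.S_ANI2 := by
  classical
  intro T hT hS hL hpl V hV
  have hsym : (cm T yy).IsSymm := cm_symm yy
  have hev : ∀ (η : Fin 4 → ℂ) i j, eval η (cm T yy i j) = cm T (vy η) i j := by
    intro η i j
    rw [ev_ae]
    have h1 := cm_map (T := T) (aeval η : R4 →ₐ[ℂ] ℂ) yy i j
    rw [eval_yy] at h1
    exact h1
  have hvy0 : vy 0 = fun _ => 0 := by
    funext i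
    fin_cases i <;> rfl
  have hz3 : ∀ x y : Fin 6 → ℂ, Bf T x y (fun _ => 0) = 0 := by
    intro x y
    rw [Bf_comm23 hT, Bf_comm12 hT]
    exact Bf_zero1 _ _
  obtain ⟨η, hη0, hmin⟩ := eta (cm T yy) hsym (by
    intro i j
    rw [hev, hvy0]
    fin_cases i <;> fin_cases j <;> simp [cm, hz3])
  set y := vy η with hy
  have hy0 : y 0 = 0 := rfl
  have hy1 : y 1 = 0 := rfl
  have hyne : y ≠ 0 := by
    intro h
    apply hη0
    funext l
    have h2 := congrFun h (⟨l.val + 2, by omega⟩ : Fin 6)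
    fin_cases l
    · exact h2
    · exact h2
    · exact h2
    · exact h2
  have hl : ∀ a b : Fin 6, a.val < 2 → b.val < 2 → ∀ c : Fin 6, c.val < 2 →
      Bf T (E a : Fin 6 → ℂ) (E b) (E c) = 0 := fun a b ha hb c hc => Bf_E0 hL ha hb hc
  have h000 := hl 0 0 (by decide) (by decide) 0 (by decide)
  have h001 := hl 0 0 (by decide) (by decide) 1 (by decide)
  have h010 := hl 0 1 (by decide) (by decide) 0 (by decide)
  have h011 := hl 0 1 (by decide) (by decide) 1 (by decide)
  have h100 := hl 1 0 (by decide) (by decide) 0 (by decide)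
  have h101 := hl 1 0 (by decide) (by decide) 1 (by decide)
  have h110 := hl 1 1 (by decide) (by decide) 0 (by decide)
  have h111 := hl 1 1 (by decide) (by decide) 1 (by decide)
  have c10 : Bf T (E 1 : Fin 6 → ℂ) (E 0) y = Bf T (E 0) (E 1) y := Bf_comm12 hT _ _ _
  -- the entries of the matrix at `η`
  have m00 : cm T y 0 0 = 3 * Bf T (E 0) (E 0) y := rfl
  have m01 : cm T y 0 1 = 3 * Bf T (E 0) (E 1) y := rfl
  have m10 : cm T y 1 0 = 3 * Bf T (E 0) (E 1) y := rfl
  have m11 : cm T y 1 1 = 3 * Bf T (E 1) (E 1) y := rfl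
  have m02 : cm T y 0 2 = 3 / 2 * Bf T (E 0) y y := rfl
  have m20 : cm T y 2 0 = 3 / 2 * Bf T (E 0) y y := rfl
  have m12 : cm T y 1 2 = 3 / 2 * Bf T (E 1) y y := rfl
  have m21 : cm T y 2 1 = 3 / 2 * Bf T (E 1) y y := rfl
  have m22 : cm T y 2 2 = Bf T y y y := rfl
  refine an (cm T yy) hsym η ?_ hmin ?_ V hV
  · -- not zero
    by_contra hcon
    push Not at hcon
    simp only [hev] at hcon
    have e00 : Bf T (E 0) (E 0) y = 0 := by
      have := hcon 0 0
      rw [m00] at this
      simpa using this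
    have e01 : Bf T (E 0) (E 1) y = 0 := by
      have := hcon 0 1
      rw [m01] at this
      simpa using this
    have e11 : Bf T (E 1) (E 1) y = 0 := by
      have := hcon 1 1
      rw [m11] at this
      simpa using this
    have e02 : Bf T (E 0) y y = 0 := by
      have := hcon 0 2
      rw [m02] at this
      simpa using this
    have e12 : Bf T (E 1) y y = 0 := by
      have := hcon 1 2
      rw [m12] at this
      simpa using this
    have e22 : Bf T y y y = 0 := by
      have := hcon 2 2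
      rw [m22] at this
      exact this
    obtain ⟨i, j, k, hijk⟩ := hpl y hy0 hy1 hyne
    apply hijk
    have s1 : ∀ a : Fin 6, Bf T y (E a) y = Bf T (E a) y y := fun a => Bf_comm12 hT _ _ _
    have s2 : ∀ a : Fin 6, Bf T y y (E a) = Bf T (E a) y y := fun a => by
      rw [Bf_comm23 hT, Bf_comm12 hT]
    have s3 : ∀ a b : Fin 6, Bf T (E a : Fin 6 → ℂ) y (E b) = Bf T (E a) (E b) y := fun a b =>
      Bf_comm23 hT _ _ _
    have s4 : ∀ a b : Fin 6, Bf T y (E a : Fin 6 → ℂ) (E b) = Bf T (E a) (E b) y := fun a b => by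
      rw [Bf_comm12 hT, Bf_comm23 hT]
    fin_cases i <;> fin_cases j <;> fin_cases k <;>
      simp [s1, s2, s3, s4, e00, e01, e11, e02, e12, e22, c10, h000, h001, h010, h011, h100, h101,
        h110, h111]
  · intro u hu hker
    by_contra hcon
    push Not at hcon
    simp only [hev] at hker
    have r0 := hker 0
    have r1 := hker 1
    rw [Fin.sum_univ_three] at r0 r1
    rw [m00, m01, m02] at r0
    rw [m10, m11, m12] at r1
    set P : Fin 6 → ℂ := fun i => u 0 * E 0 i + (u 1 * E 1 i + u 2 * y i) with hP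
    have hsing : ∀ i : Fin 6, Bf T P P (E i) = 0 := by
      have hE0 : Bf T P P (E 0) = 0 := by
        rw [hP, Bf_PP hT, h000, h010, h110, Bf_comm23 hT (E 0) y, Bf_comm23 hT (E 1) y,
          Bf_comm23 hT y y, Bf_comm12 hT y (E 0), c10]
        linear_combination (2 / 3 * u 2) * r0
      have hE1 : Bf T P P (E 1) = 0 := by
        rw [hP, Bf_PP hT, h001, h011, h111, Bf_comm23 hT (E 0) y, Bf_comm23 hT (E 1) y,
          Bf_comm23 hT y y, Bf_comm12 hT y (E 1)]
        linear_combination (2 / 3 * u 2) * r1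
      have hEl : ∀ l : Fin 4, Bf T P P (E (⟨l.val + 2, by omega⟩ : Fin 6)) = 0 := by
        intro l
        have h1 := hcon l
        have h2 : (∑ i, ∑ j, C (u i) * cm T yy i j * C (u j) : R4) = qf (cm T yy) fun i => C (u i) :=
          rfl
        rw [h2, qf_cm] at h1
        set e : Fin 6 → R4 := E (⟨l.val + 2, by omega⟩ : Fin 6) with he
        have d1 : ∀ a b : Fin 6, pderiv l (Bf T (E a) (E b) yy) = Bf T (E a) (E b) e := by
          intro a b
          rw [pderiv_Bf, pderiv_E, pderiv_E, pderiv_yy, Bf_zero1, Bf_comm12 hT (E a) (fun _ => 0),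
            Bf_zero1, zero_add, zero_add]
        have d2 : ∀ a : Fin 6, pderiv l (Bf T (E a) yy yy) = 2 * Bf T (E a) yy e := by
          intro a
          rw [pderiv_Bf, pderiv_E, pderiv_yy, Bf_zero1, Bf_comm23 hT (E a) (E _) yy]
          ring
        have d3 : pderiv l (Bf T yy yy yy) = 3 * Bf T yy yy e := by
          rw [pderiv_Bf, pderiv_yy, Bf_comm12 hT (E _) yy yy, Bf_comm23 hT yy (E _) yy]
          ring
        have hc : ∀ (a : ℂ) (p : R4), pderiv l (p * C a) = pderiv l p * C a := by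
          intro a p
          rw [Derivation.leibniz, pderiv_C, smul_zero, zero_add, smul_eq_mul, mul_comm]
        have h3c : ∀ p : R4, pderiv l (3 * p) = 3 * pderiv l p := by
          intro p
          have : (3 : R4) = C 3 := by rw [map_ofNat]
          rw [this, mul_comm, hc, mul_comm]
        have h6c : ∀ p : R4, pderiv l (6 * p) = 6 * pderiv l p := by
          intro p
          have : (6 : R4) = C 6 := by rw [map_ofNat]
          rw [this, mul_comm, hc, mul_comm]
        simp only [map_add, ← C_pow, hc, h3c, h6c, d1, d2, d3] at h1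
        rw [map_mul, map_mul, map_mul, map_mul] at h1
        have hm : ∀ a b : Fin 6, eval η (Bf T (E a) (E b) e) =
            Bf T (E a : Fin 6 → ℂ) (E b) (E (⟨l.val + 2, by omega⟩ : Fin 6)) := by
          intro a b
          rw [ev_ae, Bf_map, E_map, E_map, he, E_map]
        have hm2 : ∀ a : Fin 6, eval η (Bf T (E a) yy e) =
            Bf T (E a : Fin 6 → ℂ) y (E (⟨l.val + 2, by omega⟩ : Fin 6)) := by
          intro a
          rw [ev_ae, Bf_map, E_map, eval_yy, he, E_map]
        have hm3 : eval η (Bf T yy yy e) =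
            Bf T y y (E (⟨l.val + 2, by omega⟩ : Fin 6)) := by
          rw [ev_ae, Bf_map, eval_yy, he, E_map]
        simp only [map_mul, eval_C, map_ofNat, hm, hm2, hm3] at h1
        rw [hP, Bf_PP hT]
        linear_combination (1 / 3 : ℂ) * h1
      intro i
      fin_cases i
      · exact hE0
      · exact hE1
      · exact hEl 0
      · exact hEl 1
      · exact hEl 2
      · exact hEl 3
    have hP0 : P = 0 := by
      apply hS
      intro i
      rw [← Bf_EPP, Bf_comm12 hT, Bf_comm23 hT]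
      exact hsing i
    apply hu
    have hPl : ∀ l : Fin 4, u 2 * η l = 0 := by
      intro l
      have := congrFun hP0 (⟨l.val + 2, by omega⟩ : Fin 6)
      rw [hP] at this
      fin_cases l <;> simpa [E, hy, vy, Pi.single_apply] using this
    have hu2 : u 2 = 0 := by
      by_contra h2
      apply hη0
      funext l
      exact (mul_eq_zero.1 (hPl l)).resolve_left h2
    have h0 := congrFun hP0 0
    have h1 := congrFun hP0 1
    rw [hP] at h0 h1
    simp only [hu2, zero_mul, add_zero, E, Pi.single_eq_same, mul_one, Pi.zero_apply, ne_eq,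
      one_ne_zero, not_false_eq_true, zero_ne_one, Pi.single_eq_of_ne, mul_zero, zero_add] at h0 h1
    funext i
    fin_cases i
    · exact h0
    · exact h1
    · exact hu2

theorem ani : S_ANI := by
  intro T hT hS hN hL
  refine ani2 T hT hS hL fun y hy0 hy1 hy => ?_
  apply hN
  rw [Fintype.linearIndependent_iff]
  intro g hg
  rw [Fin.sum_univ_three] at hg
  have h0 := congrFun hg 0
  have h1 := congrFun hg 1
  simp [E, hy0, hy1] at h0 h1
  have h2 : g 2 = 0 := by
    by_contra h2
    apply hy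
    funext i
    have h3 := congrFun hg i
    simp [h0, h1] at h3
    exact h3.resolve_left h2
  intro i
  fin_cases i
  · exact h0
  · exact h1
  · exact h2

end

end Pool.Agent.Q79.C3
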