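import Pool.Agent.Y201.C3.Stm

/-! # Project C3, job BASE: a birational map of degree three from `P^4` onto its image in a cubic
hypersurface has a base point -/

set_option autoImplicit false

namespace Pool.Agent.Q79.C3

open MvPolynomial Pool.Agent.TH314.PD

noncomputable section

/-! ## homogeneous forms -/

theorem finrank_forms (N m : ℕ) : Module.finrank ℂ (homogeneousSubmodule (Fin (N + 1)) ℂ m) =
    (N + m).choose N := by
  classical
  have e0 : ({d : Fin (N + 1) →₀ ℕ | d.degree = m} : Set (Fin (N + 1) →₀ ℕ)) =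
      ((Finset.univ : Finset (Fin (N + 1))).finsuppAntidiag m : Set (Fin (N + 1) →₀ ℕ)) := by
    ext d
    simp [Finset.mem_finsuppAntidiag, Finsupp.degree_eq_sum]
  rw [homogeneousSubmodule_eq_finsupp_supported, e0,
    LinearEquiv.finrank_eq (AddMonoidAlgebra.supportedEquivFinsupp (S := ℂ) (R := ℂ)
      ((Finset.univ : Finset (Fin (N + 1))).finsuppAntidiag m : Set (Fin (N + 1) →₀ ℕ))),
    Module.finrank_finsupp_self]
  simp only [SetLike.coe_sort_coe, Fintype.card_coe]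
  rw [Finset.card_finsuppAntidiag_nat_eq_choose]
  rw [Finset.card_univ, Fintype.card_fin]
  rw [show N + 1 + m - 1 = N + m by omega]
  exact Nat.choose_symm_add.symm

theorem finite_forms (N m : ℕ) : Module.Finite ℂ (homogeneousSubmodule (Fin (N + 1)) ℂ m) := by
  apply Module.finite_of_finrank_pos
  rw [finrank_forms]
  exact Nat.choose_pos (Nat.le_add_right _ _)

theorem comp_mul {σ : Type} {F : MvPolynomial σ ℂ} {d : ℕ} (hF : F.IsHomogeneous d)
    (y : MvPolynomial σ ℂ) (t : ℕ) :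
    homogeneousComponent (t + d) (F * y) = F * homogeneousComponent t y := by
  have h1 : ∀ i, homogeneousComponent (t + d) (F * homogeneousComponent i y) =
      if i = t then F * homogeneousComponent t y else 0 := by
    intro i
    have h2 : F * homogeneousComponent i y ∈ homogeneousSubmodule σ ℂ (d + i) :=
      (mem_homogeneousSubmodule _ _).2 (hF.mul (homogeneousComponent_isHomogeneous i y))
    rw [homogeneousComponent_of_mem h2]
    by_cases hi : i = t
    · subst hi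
      rw [if_pos (by omega), if_pos rfl]
    · rw [if_neg (by omega), if_neg hi]
  conv_lhs => rw [← sum_homogeneousComponent y]
  rw [Finset.mul_sum, map_sum, Finset.sum_congr rfl fun i _ => h1 i, Finset.sum_ite_eq']
  split_ifs with h
  · rfl
  · rw [homogeneousComponent_eq_zero t y (by
      rw [Finset.mem_range] at h
      omega), mul_zero]

/-! ## elements of the ratio field -/

theorem ratio_repr {K : Type} [Field K] [Algebra ℂ K] {m : ℕ} (x : Fin m → K) (z : K)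
    (hz : z ∈ ratioField x) : ∃ (e : ℕ) (P Q : MvPolynomial (Fin m) ℂ), P.IsHomogeneous e ∧
      Q.IsHomogeneous e ∧ aeval x Q ≠ 0 ∧ aeval x P = z * aeval x Q := by
  unfold ratioField at hz
  induction hz using IntermediateField.adjoin_induction with
  | mem z hz =>
    obtain ⟨i, j, rfl⟩ := hz
    by_cases hj : x j = 0
    · exact ⟨0, 0, 1, isHomogeneous_zero _ _ _, isHomogeneous_one _ _, by simp, by simp [hj]⟩
    · refine ⟨1, X i, X j, isHomogeneous_X _ _, isHomogeneous_X _ _, ?_, ?_⟩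
      · rwa [aeval_X]
      · rw [aeval_X, aeval_X, div_mul_cancel₀ _ hj]
  | algebraMap a => exact ⟨0, C a, 1, isHomogeneous_C _ _, isHomogeneous_one _ _, by simp, by simp⟩
  | add y z _ _ h1 h2 =>
    obtain ⟨e, P, Q, hP, hQ, hQ0, h⟩ := h1
    obtain ⟨e', P', Q', hP', hQ', hQ0', h'⟩ := h2
    refine ⟨e + e', P * Q' + Q * P', Q * Q', (hP.mul hQ').add (hQ.mul hP'), hQ.mul hQ', ?_, ?_⟩
    · rw [map_mul]
      exact mul_ne_zero hQ0 hQ0'
    · rw [map_add, map_mul, map_mul, map_mul, h, h']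
      ring
  | inv y _ h1 =>
    obtain ⟨e, P, Q, hP, hQ, hQ0, h⟩ := h1
    by_cases hy : y = 0
    · exact ⟨0, 0, 1, isHomogeneous_zero _ _ _, isHomogeneous_one _ _, by simp, by simp [hy]⟩
    · refine ⟨e, Q, P, hQ, hP, ?_, ?_⟩
      · rw [h]
        exact mul_ne_zero hy hQ0
      · rw [h]
        field_simp
  | mul y z _ _ h1 h2 =>
    obtain ⟨e, P, Q, hP, hQ, hQ0, h⟩ := h1
    obtain ⟨e', P', Q', hP', hQ', hQ0', h'⟩ := h2
    refine ⟨e + e', P * P', Q * Q', hP.mul hP', hQ.mul hQ', ?_, ?_⟩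
    · rw [map_mul]
      exact mul_ne_zero hQ0 hQ0'
    · rw [map_mul, map_mul, h, h']
      ring

/-! ## forms without common zero -/

section

variable {G : Fin 6 → MvPolynomial (Fin 5) ℂ}

theorem exists_N (hno : ∀ b : Fin 5 → ℂ, (∀ i, eval b (G i) = 0) → b = 0) :
    ∃ N : ℕ, ∀ j, (X j : MvPolynomial (Fin 5) ℂ) ^ N ∈ Ideal.span (Set.range G) := by
  set I : Ideal (MvPolynomial (Fin 5) ℂ) := Ideal.span (Set.range G) with hI0
  have hrad : ∀ j, (X j : MvPolynomial (Fin 5) ℂ) ∈ I.radical := by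
    intro j
    rw [← MvPolynomial.vanishingIdeal_zeroLocus_eq_radical (K := ℂ)]
    intro x hx
    have h0 : x = 0 := hno x (fun i => by
      have h1 := hx (G i) (Ideal.subset_span ⟨i, rfl⟩)
      rwa [aeval_eq_eval] at h1)
    rw [h0]
    simp
  choose n hn using hrad
  refine ⟨∑ j, n j, fun j => ?_⟩
  have h1 : n j ≤ ∑ j, n j := Finset.single_le_sum (fun i _ => Nat.zero_le _) (Finset.mem_univ j)
  obtain ⟨t, ht⟩ := Nat.exists_eq_add_of_le h1
  rw [ht, pow_add]
  exact I.mul_mem_right _ (hn j)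

theorem mem_span {N : ℕ} (hN : ∀ j, (X j : MvPolynomial (Fin 5) ℂ) ^ N ∈ Ideal.span (Set.range G))
    {n : ℕ} (hn : 5 * N ≤ n) {P : MvPolynomial (Fin 5) ℂ} (hP : P.IsHomogeneous n) :
    P ∈ Ideal.span (Set.range G) := by
  classical
  rw [P.as_sum]
  refine Ideal.sum_mem _ fun m hm => ?_
  have hdeg : ∑ j, m j = n := by
    have := hP (mem_support_iff.1 hm)
    rw [← this]
    simp [Finsupp.weight_apply, Finsupp.sum_fintype]
  have h1 : ∃ j, N ≤ m j := by
    by_contra hcon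
    push Not at hcon
    by_cases hN0 : N = 0
    · have := hcon 0
      omega
    have h2 : ∑ j, m j ≤ ∑ _j : Fin 5, (N - 1) := Finset.sum_le_sum fun j _ => by
      have := hcon j
      omega
    rw [Finset.sum_const, Finset.card_univ, Fintype.card_fin, smul_eq_mul] at h2
    omega
  obtain ⟨j, hj⟩ := h1
  have h3 : monomial m (coeff m P) = X j ^ N * monomial (m - Finsupp.single j N) (coeff m P) := by
    rw [X_pow_eq_monomial, monomial_mul, one_mul]
    congr 1
    rw [add_comm, tsub_add_cancel_of_le]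
    rw [Finsupp.single_le_iff]
    exact hj
  rw [h3]
  exact Ideal.mul_mem_right _ _ (hN j)

/-- division by the forms `G i` -/
theorem exists_div (hG : ∀ i, (G i).IsHomogeneous 3) {N : ℕ}
    (hN : ∀ j, (X j : MvPolynomial (Fin 5) ℂ) ^ N ∈ Ideal.span (Set.range G))
    {n : ℕ} (hn : 5 * N ≤ n + 3) {P : MvPolynomial (Fin 5) ℂ} (hP : P.IsHomogeneous (n + 3)) :
    ∃ H : Fin 6 → MvPolynomial (Fin 5) ℂ, (∀ i, (H i).IsHomogeneous n) ∧ P = ∑ i, G i * H i := by
  have h1 := mem_span hN hn hP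
  obtain ⟨c, hc⟩ := (Ideal.mem_span_range_iff_exists_fun).1 h1
  refine ⟨fun i => homogeneousComponent n (c i), fun i => homogeneousComponent_isHomogeneous _ _,
    ?_⟩
  have h2 : homogeneousComponent (n + 3) P = P := by
    rw [homogeneousComponent_of_mem ((mem_homogeneousSubmodule _ _).2 hP), if_pos rfl]
  rw [← h2, ← hc, map_sum]
  refine Finset.sum_congr rfl fun i _ => ?_
  rw [mul_comm (c i), comp_mul (hG i)]

/-! ## denominators -/

/-- multiplication by `D (G)` maps the forms of degree `3 j` to forms in the `G i` -/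
def Den (G : Fin 6 → MvPolynomial (Fin 5) ℂ) (δ : ℕ) (D : MvPolynomial (Fin 6) ℂ) (j : ℕ)
    (P : MvPolynomial (Fin 5) ℂ) : Prop :=
  ∃ Q : MvPolynomial (Fin 6) ℂ, Q.IsHomogeneous (δ + j) ∧ aeval G D * P = aeval G Q

theorem Den.mul {δ δ' : ℕ} {D D' : MvPolynomial (Fin 6) ℂ} {j : ℕ} {P : MvPolynomial (Fin 5) ℂ}
    (h : Den G δ D j P) (hD' : D'.IsHomogeneous δ') : Den G (δ' + δ) (D' * D) j P := by
  obtain ⟨Q, hQ, h⟩ := h
  refine ⟨D' * Q, ?_, ?_⟩
  · rw [add_assoc]
    exact hD'.mul hQ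
  · rw [map_mul, map_mul, mul_assoc, h]

theorem Den.mul' {δ δ' : ℕ} {D D' : MvPolynomial (Fin 6) ℂ} {j : ℕ} {P : MvPolynomial (Fin 5) ℂ}
    (h : Den G δ D j P) (hD' : D'.IsHomogeneous δ') : Den G (δ + δ') (D * D') j P := by
  rw [add_comm, mul_comm]
  exact h.mul hD'

theorem Den.sum {δ : ℕ} {D : MvPolynomial (Fin 6) ℂ} {j : ℕ} {ι : Type} (s : Finset ι)
    (P : ι → MvPolynomial (Fin 5) ℂ) (h : ∀ i ∈ s, Den G δ D j (P i)) :
    Den G δ D j (∑ i ∈ s, P i) := by
  classical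
  choose! Q hQ h using h
  refine ⟨∑ i ∈ s, Q i, IsHomogeneous.sum _ _ _ hQ, ?_⟩
  rw [Finset.mul_sum, map_sum]
  exact Finset.sum_congr rfl h

theorem den_finset (T : Finset (MvPolynomial (Fin 5) ℂ)) (j : ℕ)
    (h : ∀ P ∈ T, ∃ (δ : ℕ) (D : MvPolynomial (Fin 6) ℂ), D.IsHomogeneous δ ∧ aeval G D ≠ 0 ∧
      Den G δ D j P) :
    ∃ (δ : ℕ) (D : MvPolynomial (Fin 6) ℂ), D.IsHomogeneous δ ∧ aeval G D ≠ 0 ∧
      ∀ P ∈ T, Den G δ D j P := by
  classical
  induction T using Finset.induction_on with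
  | empty => exact ⟨0, 1, isHomogeneous_one _ _, by simp, by simp⟩
  | insert P T hPT ih =>
    obtain ⟨δ, D, hD, hD0, hDT⟩ := ih fun P hP => h P (Finset.mem_insert_of_mem hP)
    obtain ⟨δ', D', hD', hD0', hDP⟩ := h P (Finset.mem_insert_self _ _)
    refine ⟨δ + δ', D * D', hD.mul hD', ?_, ?_⟩
    · rw [map_mul]
      exact mul_ne_zero hD0 hD0'
    · intro P' hP'
      rcases Finset.mem_insert.1 hP' with rfl | hP'
      · exact hDP.mul hD
      · exact (hDT P' hP').mul' hD'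

theorem den_degree (j : ℕ)
    (h : ∀ P : MvPolynomial (Fin 5) ℂ, P.IsHomogeneous (3 * j) →
      ∃ (δ : ℕ) (D : MvPolynomial (Fin 6) ℂ), D.IsHomogeneous δ ∧ aeval G D ≠ 0 ∧ Den G δ D j P) :
    ∃ (δ : ℕ) (D : MvPolynomial (Fin 6) ℂ), D.IsHomogeneous δ ∧ aeval G D ≠ 0 ∧
      ∀ P : MvPolynomial (Fin 5) ℂ, P.IsHomogeneous (3 * j) → Den G δ D j P := by
  classical
  set A : Finset (Fin 5 →₀ ℕ) := (Finset.univ : Finset (Fin 5)).finsuppAntidiag (3 * j) with hA
  have hAm : ∀ m ∈ A, (monomial m (1 : ℂ)).IsHomogeneous (3 * j) := by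
    intro m hm
    apply isHomogeneous_monomial
    rw [Finsupp.degree_eq_sum]
    exact (Finset.mem_finsuppAntidiag.1 hm).1
  obtain ⟨δ, D, hD, hD0, hDT⟩ := den_finset (G := G) (A.image fun m => monomial m (1 : ℂ)) j (by
    intro P hP
    obtain ⟨m, hm, rfl⟩ := Finset.mem_image.1 hP
    exact h _ (hAm m hm))
  refine ⟨δ, D, hD, hD0, fun P hP => ?_⟩
  rw [P.as_sum]
  refine Den.sum _ _ fun m hm => ?_
  have hmA : m ∈ A := by
    rw [hA, Finset.mem_finsuppAntidiag]
    refine ⟨?_, by simp⟩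
    have := hP (mem_support_iff.1 hm)
    rw [← this]
    simp [Finsupp.weight_apply, Finsupp.sum_fintype]
  obtain ⟨Q, hQ, hDQ⟩ := hDT _ (Finset.mem_image_of_mem _ hmA)
  refine ⟨C (coeff m P) * Q, ?_, ?_⟩
  · have := (isHomogeneous_C (Fin 6) (coeff m P)).mul hQ
    rwa [zero_add] at this
  · have h1 : monomial m (coeff m P) = C (coeff m P) * monomial m 1 := by
      rw [C_mul_monomial, mul_one]
    rw [h1, map_mul, ← hDQ, mul_left_comm]
    congr 1
    exact (aeval_C G _).symm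

theorem den_le (J : ℕ)
    (h : ∀ (j : ℕ) (P : MvPolynomial (Fin 5) ℂ), P.IsHomogeneous (3 * j) →
      ∃ (δ : ℕ) (D : MvPolynomial (Fin 6) ℂ), D.IsHomogeneous δ ∧ aeval G D ≠ 0 ∧ Den G δ D j P) :
    ∃ (δ : ℕ) (D : MvPolynomial (Fin 6) ℂ), D.IsHomogeneous δ ∧ aeval G D ≠ 0 ∧
      ∀ j < J, ∀ P : MvPolynomial (Fin 5) ℂ, P.IsHomogeneous (3 * j) → Den G δ D j P := by
  induction J with
  | zero => exact ⟨0, 1, isHomogeneous_one _ _, by simp, by simp⟩
  | succ J ih =>
    obtain ⟨δ, D, hD, hD0, hDT⟩ := ih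
    obtain ⟨δ', D', hD', hD0', hDP⟩ := den_degree (G := G) J (h J)
    refine ⟨δ + δ', D * D', hD.mul hD', ?_, ?_⟩
    · rw [map_mul]
      exact mul_ne_zero hD0 hD0'
    · intro j hj P hP
      rcases Nat.lt_succ_iff_lt_or_eq.1 hj with hj | rfl
      · exact (hDT j hj P hP).mul' hD'
      · exact (hDP P hP).mul hD

theorem den_all (hG : ∀ i, (G i).IsHomogeneous 3)
    (hno : ∀ b : Fin 5 → ℂ, (∀ i, eval b (G i) = 0) → b = 0)
    (h : ∀ (j : ℕ) (P : MvPolynomial (Fin 5) ℂ), P.IsHomogeneous (3 * j) →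
      ∃ (δ : ℕ) (D : MvPolynomial (Fin 6) ℂ), D.IsHomogeneous δ ∧ aeval G D ≠ 0 ∧ Den G δ D j P) :
    ∃ (δ : ℕ) (D : MvPolynomial (Fin 6) ℂ), D.IsHomogeneous δ ∧ aeval G D ≠ 0 ∧
      ∀ (j : ℕ) (P : MvPolynomial (Fin 5) ℂ), P.IsHomogeneous (3 * j) → Den G δ D j P := by
  obtain ⟨N, hN⟩ := exists_N hno
  obtain ⟨δ, D, hD, hD0, hDT⟩ := den_le (G := G) (5 * N + 1) h
  refine ⟨δ, D, hD, hD0, fun j => ?_⟩
  induction j with
  | zero => exact hDT 0 (by omega)
  | succ j ih =>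
    intro P hP
    by_cases hj : j + 1 < 5 * N + 1
    · exact hDT _ hj P hP
    · obtain ⟨H, hH, rfl⟩ := exists_div hG hN (n := 3 * j) (by omega) (P := P)
        (by rw [show 3 * j + 3 = 3 * (j + 1) by ring]; exact hP)
      refine Den.sum _ _ fun i _ => ?_
      obtain ⟨Q, hQ, hDQ⟩ := ih (H i) (hH i)
      refine ⟨X i * Q, ?_, ?_⟩
      · rw [show δ + (j + 1) = 1 + (δ + j) by ring]
        exact (isHomogeneous_X ℂ i).mul hQ
      · rw [map_mul, aeval_X, ← hDQ]
        ring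

end

end

end Pool.Agent.Q79.C3
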