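import Pool.Agent.Q79.C3.Base

/-! # Project C3, job BASE, second part: dimensions -/

set_option autoImplicit false

namespace Pool.Agent.Q79.C3

open MvPolynomial Pool.Agent.TH314.PD

noncomputable section

theorem choose_four (a : ℕ) : 24 * (a + 4).choose 4 = (a + 1) * (a + 2) * (a + 3) * (a + 4) := by
  have h1 := Nat.add_choose_mul_factorial_mul_factorial a 4
  have h2 : (a + 4).factorial = (a + 4) * ((a + 3) * ((a + 2) * ((a + 1) * a.factorial))) := rfl
  have h3 : Nat.factorial 4 = 24 := rfl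
  rw [h2, h3] at h1
  have h4 : (24 * (a + 4).choose 4) * a.factorial =
      ((a + 1) * (a + 2) * (a + 3) * (a + 4)) * a.factorial := by
    linarith
  exact Nat.eq_of_mul_eq_mul_right (Nat.factorial_pos a) h4

theorem numeric (δ : ℕ) : (5 + (2 * δ + 1)).choose 5 <
    (4 + 3 * (δ + 1)).choose 4 + (5 + (2 * δ + 1) - 3).choose 5 := by
  have e1 : (5 + (2 * δ + 1)).choose 5 = (2 * δ + 1 + 4).choose 4 + (2 * δ + 4).choose 4 +
      (2 * δ + 3).choose 4 + (5 + (2 * δ + 1) - 3).choose 5 := by
    rw [show 5 + (2 * δ + 1) - 3 = 2 * δ + 3 by omega]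
    rw [show 5 + (2 * δ + 1) = (2 * δ + 5) + 1 by ring, Nat.choose_succ_succ (2 * δ + 5) 4,
      show 2 * δ + 5 = (2 * δ + 4) + 1 by ring, Nat.choose_succ_succ (2 * δ + 4) 4,
      show 2 * δ + 4 = (2 * δ + 3) + 1 by ring, Nat.choose_succ_succ (2 * δ + 3) 4]
    rw [show 2 * δ + 3 + 1 + 1 = 2 * δ + 1 + 4 by ring, show Nat.succ 4 = 5 from rfl]
    ring
  rw [e1]
  have h1 : (2 * δ + 4).choose 4 ≤ (2 * δ + 1 + 4).choose 4 :=
    Nat.choose_le_choose 4 (by omega)
  have h2 : (2 * δ + 3).choose 4 ≤ (2 * δ + 1 + 4).choose 4 :=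
    Nat.choose_le_choose 4 (by omega)
  have h3 := choose_four (2 * δ + 1)
  have h4 := choose_four (3 * (δ + 1))
  rw [show 3 * (δ + 1) + 4 = 4 + 3 * (δ + 1) by ring] at h4
  have h5 : 3 * ((2 * δ + 1 + 1) * (2 * δ + 1 + 2) * (2 * δ + 1 + 3) * (2 * δ + 1 + 4)) <
      (3 * (δ + 1) + 1) * (3 * (δ + 1) + 2) * (3 * (δ + 1) + 3) * (4 + 3 * (δ + 1)) := by
    have a1 : 7 * (2 * δ + 1 + 1) ≤ 5 * (3 * (δ + 1) + 1) := by omega
    have a2 : 7 * (2 * δ + 1 + 2) ≤ 5 * (3 * (δ + 1) + 2) := by omega
    have a3 : 7 * (2 * δ + 1 + 3) ≤ 5 * (3 * (δ + 1) + 3) := by omega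
    have a4 : 7 * (2 * δ + 1 + 4) ≤ 5 * (4 + 3 * (δ + 1)) := by omega
    have a5 := Nat.mul_le_mul (Nat.mul_le_mul (Nat.mul_le_mul a1 a2) a3) a4
    have a6 : 0 < (2 * δ + 1 + 1) * (2 * δ + 1 + 2) * (2 * δ + 1 + 3) * (2 * δ + 1 + 4) := by
      positivity
    nlinarith
  omega

variable {M : Type} [Field M] [Algebra ℂ M]

theorem base : Pool.Agent.Y201.C3.S_BASE := by
  classical
  intro M _ _ s hs F hF hF0 G hG hGF hr
  by_contra hcon
  push Not at hcon
  have hno : ∀ b : Fin 5 → ℂ, (∀ i, eval b (G i) = 0) → b = 0 := by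
    intro b hb
    by_contra hb0
    obtain ⟨i, hi⟩ := hcon b hb0
    exact hi (hb i)
  -- some form is not zero
  obtain ⟨l0, hl0⟩ : ∃ l, G l ≠ 0 := by
    by_contra h
    push Not at h
    have h1 := hno (fun _ => 1) (fun i => by rw [h i, map_zero])
    exact one_ne_zero (congrFun h1 0)
  have hs0 : s 0 ≠ 0 := by
    intro h
    have h1 := hs 1 (X 0) (isHomogeneous_X _ _) (by rw [aeval_X, h])
    exact X_ne_zero 0 h1
  have hx0 : aeval s (G l0) ≠ 0 := fun h => hl0 (hs 3 _ (hG l0) h)
  set x : Fin 6 → M := fun l => aeval s (G l) with hx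
  have hcomp : ∀ H : MvPolynomial (Fin 6) ℂ, aeval s (aeval G H) = aeval x H := by
    intro H
    have h2 : (aeval s).comp (aeval G) = (aeval x : MvPolynomial (Fin 6) ℂ →ₐ[ℂ] M) := by
      apply algHom_ext
      intro i
      rw [AlgHom.comp_apply, aeval_X, aeval_X]
    rw [← h2]
    rfl
  -- denominators
  have hden : ∀ (j : ℕ) (P : MvPolynomial (Fin 5) ℂ), P.IsHomogeneous (3 * j) →
      ∃ (δ : ℕ) (D : MvPolynomial (Fin 6) ℂ), D.IsHomogeneous δ ∧ aeval G D ≠ 0 ∧
        Den G δ D j P := by
    intro j P hP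
    have h1 : ∀ A : MvPolynomial (Fin 5) ℂ, aeval (fun i => s i / s 0) A ∈ ratioField x := by
      intro A
      induction A using MvPolynomial.induction_on with
      | C a =>
        rw [aeval_C]
        exact (ratioField x).algebraMap_mem a
      | add f g hf hg =>
        rw [map_add]
        exact add_mem hf hg
      | mul_X f i hf =>
        rw [map_mul, aeval_X]
        exact mul_mem hf (hr i 0)
    have h2 : s = fun i => s 0 * (s i / s 0) := by
      funext i
      field_simp
    have h3 : ∀ (e : ℕ) (A : MvPolynomial (Fin 5) ℂ), A.IsHomogeneous e →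
        aeval s A = s 0 ^ e * aeval (fun i => s i / s 0) A := by
      intro e A hA
      conv_lhs => rw [h2]
      exact aeval_smul_form hA _ _
    have h4 : aeval s P / x l0 ^ j ∈ ratioField x := by
      have h5 : x l0 = s 0 ^ 3 * aeval (fun i => s i / s 0) (G l0) := h3 3 _ (hG l0)
      rw [h3 _ P hP, h5, mul_pow, ← pow_mul, mul_div_mul_left _ _ (pow_ne_zero _ hs0)]
      exact div_mem (h1 P) (pow_mem (h1 _) j)
    obtain ⟨e, P', Q', hP', hQ', hQ0', h⟩ := ratio_repr x _ h4
    refine ⟨e, Q', hQ', ?_, X l0 ^ j * P', ?_, ?_⟩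
    · intro h0
      apply hQ0'
      rw [← hcomp, h0, map_zero]
    · have := ((isHomogeneous_X ℂ l0).pow j).mul hP'
      rw [one_mul, add_comm] at this
      exact this
    · rw [← sub_eq_zero]
      refine hs (3 * e + 3 * j) _ ?_ ?_
      · refine ((hQ'.aeval _ hG).mul hP).sub ?_
        have h6 : (X l0 ^ j * P' : MvPolynomial (Fin 6) ℂ).IsHomogeneous (j + e) := by
          have := ((isHomogeneous_X ℂ l0).pow j).mul hP'
          rwa [one_mul] at this
        have h7 := h6.aeval _ hG
        rwa [show 3 * (j + e) = 3 * e + 3 * j by ring] at h7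
      · rw [map_sub, map_mul, hcomp, hcomp, map_mul, map_pow, aeval_X, sub_eq_zero, h]
        have h8 : x l0 ^ j ≠ 0 := pow_ne_zero _ hx0
        field_simp
  obtain ⟨δ, D, hD, hD0, hall⟩ := den_all hG hno hden
  -- the dimensions
  set k := δ + (δ + 1) with hk
  have hk' : k = 2 * δ + 1 := by omega
  let V := homogeneousSubmodule (Fin 6) ℂ k
  let φ : V →ₗ[ℂ] MvPolynomial (Fin 5) ℂ := (aeval G).toLinearMap.comp V.subtype
  have hφ : ∀ v : V, φ v = aeval G (v : MvPolynomial (Fin 6) ℂ) := fun v => rfl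
  have hVfin : Module.Finite ℂ V := finite_forms 5 k
  have hVr : Module.finrank ℂ V = (5 + k).choose 5 := finrank_forms 5 k
  have hrn := LinearMap.finrank_range_add_finrank_ker φ
  -- the kernel
  have hker : (5 + k - 3).choose 5 ≤ Module.finrank ℂ (LinearMap.ker φ) := by
    by_cases hk3 : 3 ≤ k
    · obtain ⟨k', hk''⟩ := Nat.exists_eq_add_of_le' hk3
      let U := homogeneousSubmodule (Fin 6) ℂ k'
      have hUr : Module.finrank ℂ U = (5 + k').choose 5 := finrank_forms 5 k'
      let ψ : U →ₗ[ℂ] LinearMap.ker φ :=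
        { toFun := fun u => ⟨⟨F * u, by
            have h1 : (u : MvPolynomial (Fin 6) ℂ).IsHomogeneous k' := u.2
            have h2 := hF.mul h1
            rw [mem_homogeneousSubmodule, hk'', add_comm]
            exact h2⟩, by
            rw [LinearMap.mem_ker, hφ]
            change aeval G (F * (u : MvPolynomial (Fin 6) ℂ)) = 0
            rw [map_mul, hGF, zero_mul]⟩
          map_add' := fun u v => by
            apply Subtype.ext
            apply Subtype.ext
            change F * ((u : MvPolynomial (Fin 6) ℂ) + v) = F * u + F * v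
            ring
          map_smul' := fun a u => by
            apply Subtype.ext
            apply Subtype.ext
            change F * (a • (u : MvPolynomial (Fin 6) ℂ)) = a • (F * u)
            rw [mul_smul_comm] }
      have hψ : Function.Injective ψ := by
        intro u v huv
        have h1 : F * (u : MvPolynomial (Fin 6) ℂ) = F * v :=
          congrArg (fun z : LinearMap.ker φ => ((z : V) : MvPolynomial (Fin 6) ℂ)) huv
        exact Subtype.ext (mul_left_cancel₀ hF0 h1)
      have h1 := LinearMap.finrank_le_finrank_of_injective hψ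
      rw [hUr] at h1
      rwa [show 5 + k - 3 = 5 + k' by omega]
    · rw [Nat.choose_eq_zero_of_lt (by omega)]
      exact Nat.zero_le _
  -- the image
  have him : (4 + 3 * (δ + 1)).choose 4 ≤ Module.finrank ℂ (LinearMap.range φ) := by
    let U := homogeneousSubmodule (Fin 5) ℂ (3 * (δ + 1))
    have hUr : Module.finrank ℂ U = (4 + 3 * (δ + 1)).choose 4 := finrank_forms 4 _
    let ψ : U →ₗ[ℂ] LinearMap.range φ :=
      { toFun := fun u => ⟨aeval G D * u, by
          obtain ⟨Q, hQ, h⟩ := hall (δ + 1) u u.2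
          exact ⟨⟨Q, hQ⟩, h.symm⟩⟩
        map_add' := fun u v => by
          apply Subtype.ext
          change aeval G D * ((u : MvPolynomial (Fin 5) ℂ) + v) = aeval G D * u + aeval G D * v
          ring
        map_smul' := fun a u => by
          apply Subtype.ext
          change aeval G D * (a • (u : MvPolynomial (Fin 5) ℂ)) = a • (aeval G D * u)
          rw [mul_smul_comm] }
    have hψ : Function.Injective ψ := by
      intro u v huv
      have h1 : aeval G D * (u : MvPolynomial (Fin 5) ℂ) = aeval G D * v :=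
        congrArg (fun z : LinearMap.range φ => (z : MvPolynomial (Fin 5) ℂ)) huv
      exact Subtype.ext (mul_left_cancel₀ hD0 h1)
    have h1 := LinearMap.finrank_le_finrank_of_injective hψ
    rwa [hUr] at h1
  have hnum := numeric δ
  rw [hVr] at hrn
  rw [← hk'] at hnum
  omega

end

end Pool.Agent.Q79.C3
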