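import Pool.Agent.Q79.C3.Quad
import Pool.Agent.Y201.C3.Stm

/-! # Project C3, job CONIC -/

set_option autoImplicit false

namespace Pool.Agent.Q79.C3

open IntermediateField

noncomputable section

theorem conic : Pool.Agent.Y201.C3.S_CONIC := by
  intro K M _ _ _ _ A hA han hna v hv hgen
  classical
  have s10 : A 1 0 = A 0 1 := hA.apply 0 1
  have s20 : A 2 0 = A 0 2 := hA.apply 0 2
  have s21 : A 2 1 = A 1 2 := hA.apply 1 2
  obtain ⟨α, hα⟩ : ∃ α, α = A 0 0 := ⟨_, rfl⟩
  have hα0 : α ≠ 0 := by
    intro h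
    have h1 := han ![1, 0, 0] (by simp [Fin.sum_univ_three, ← hα, h])
    have h2 := congrFun h1 0
    simp at h2
  obtain ⟨b, hb⟩ : ∃ b, A 0 1 = α * b := ⟨A 0 1 / α, by field_simp⟩
  obtain ⟨c, hc⟩ : ∃ c, A 0 2 = α * c := ⟨A 0 2 / α, by field_simp⟩
  obtain ⟨β, hβ⟩ : ∃ β, A 1 1 = β + α * b ^ 2 := ⟨A 1 1 - α * b ^ 2, by ring⟩
  have hβ0 : β ≠ 0 := by
    intro h
    have h1 := han ![-b, 1, 0] (by
      simp only [Fin.sum_univ_three, Matrix.cons_val_zero, Matrix.cons_val_one, Matrix.cons_val,
        s10, s20, s21, hb, hc, hβ, h, ← hα]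
      ring)
    have h2 := congrFun h1 1
    simp at h2
  obtain ⟨d, hd⟩ : ∃ d, A 1 2 = β * d + α * b * c := ⟨(A 1 2 - α * b * c) / β, by field_simp; ring⟩
  obtain ⟨γ, hγ⟩ : ∃ γ, A 2 2 = γ + α * c ^ 2 + β * d ^ 2 :=
    ⟨A 2 2 - α * c ^ 2 - β * d ^ 2, by ring⟩
  obtain ⟨a0, ha0⟩ : ∃ a0, β = -(α * a0) := ⟨-(β / α), by field_simp⟩
  obtain ⟨c0, hc0⟩ : ∃ c0, γ = -(α * c0) := ⟨-(γ / α), by field_simp⟩
  have key : ∀ (R : Type) [CommRing R] (f : K →+* R) (w : Fin 3 → R),
      ∑ i, ∑ j, w i * f (A i j) * w j = f α * ((w 0 + f b * w 1 + f c * w 2) ^ 2 -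
        f a0 * (w 1 + f d * w 2) ^ 2 - f c0 * (w 2) ^ 2) := by
    intro R _ f w
    simp only [Fin.sum_univ_three, s10, s20, s21, hb, hc, hβ, hd, hγ, ha0, hc0, ← hα, map_add,
      map_mul, map_neg, map_pow]
    ring
  have han0 : ∀ x y z : K, x ^ 2 - a0 * y ^ 2 = c0 * z ^ 2 → x = 0 ∧ y = 0 ∧ z = 0 := by
    intro x y z hxyz
    have h1 := han ![x - b * (y - d * z) - c * z, y - d * z, z] (by
      have h2 := key K (RingHom.id K) ![x - b * (y - d * z) - c * z, y - d * z, z]
      simp only [RingHom.id_apply, Matrix.cons_val_zero, Matrix.cons_val_one,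
        Matrix.cons_val] at h2
      rw [show (x - b * (y - d * z) - c * z + b * (y - d * z) + c * z) = x by ring,
        show y - d * z + d * z = y by ring, hxyz, sub_self, mul_zero] at h2
      exact h2)
    have hz : z = 0 := by simpa using congrFun h1 2
    have hy : y - d * z = 0 := by simpa using congrFun h1 1
    have hx : x - b * (y - d * z) - c * z = 0 := by simpa using congrFun h1 0
    subst hz
    have hy' : y = 0 := by simpa using hy
    subst hy'
    exact ⟨by simpa using hx, rfl, rfl⟩
  have ha00 : a0 ≠ 0 := by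
    rintro rfl
    exact one_ne_zero (han0 0 1 0 (by ring)).2.1
  have hc00 : c0 ≠ 0 := by
    rintro rfl
    exact one_ne_zero (han0 0 0 1 (by ring)).2.2
  set al := algebraMap K M with hal
  have hα' : al α ≠ 0 := (map_ne_zero _).2 hα0
  have keyM : ∀ w : Fin 3 → M, ∑ i, ∑ j, w i * al (A i j) * w j = 0 →
      (w 0 + al b * w 1 + al c * w 2) ^ 2 - al a0 * (w 1 + al d * w 2) ^ 2 - al c0 * (w 2) ^ 2 =
        0 := by
    intro w hw
    rw [key M al w] at hw
    exact (mul_eq_zero.1 hw).resolve_left hα'
  -- ratios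
  have ratio : ∀ w : Fin 3 → M, w 2 ≠ 0 → adjoin K {z : M | ∃ i j, z = w i / w j} =
      adjoin K ({w 0 / w 2 + al b * (w 1 / w 2) + al c, w 1 / w 2 + al d} : Set M) := by
    intro w hw
    apply le_antisymm
    · rw [adjoin_le_iff]
      have hT := subset_adjoin K ({w 0 / w 2 + al b * (w 1 / w 2) + al c, w 1 / w 2 + al d} : Set M)
        (Set.mem_insert _ _)
      have hy := subset_adjoin K ({w 0 / w 2 + al b * (w 1 / w 2) + al c, w 1 / w 2 + al d} : Set M)
        (Set.mem_insert_of_mem _ rfl)
      set S := adjoin K ({w 0 / w 2 + al b * (w 1 / w 2) + al c, w 1 / w 2 + al d} : Set M)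
      have h1 : w 1 / w 2 ∈ S := by
        have := sub_mem hy (S.algebraMap_mem d)
        rwa [add_sub_cancel_right] at this
      have h0 : w 0 / w 2 ∈ S := by
        have := sub_mem (sub_mem hT (S.algebraMap_mem c)) (mul_mem (S.algebraMap_mem b) h1)
        rwa [add_sub_cancel_right, add_sub_cancel_right] at this
      have h2 : w 2 / w 2 ∈ S := by
        rw [div_self hw]
        exact one_mem _
      have hall : ∀ i : Fin 3, w i / w 2 ∈ S := by
        intro i
        fin_cases i
        · exact h0
        · exact h1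
        · exact h2
      rintro z ⟨i, j, rfl⟩
      have h5 : w i / w j = (w i / w 2) / (w j / w 2) := by
        rw [div_div_div_cancel_right₀ hw]
      rw [h5]
      exact div_mem (hall i) (hall j)
    · rw [adjoin_le_iff]
      have h0 : w 0 / w 2 ∈ adjoin K {z : M | ∃ i j, z = w i / w j} := subset_adjoin _ _ ⟨0, 2, rfl⟩
      have h1 : w 1 / w 2 ∈ adjoin K {z : M | ∃ i j, z = w i / w j} := subset_adjoin _ _ ⟨1, 2, rfl⟩
      rintro z (rfl | rfl)
      · exact add_mem (add_mem h0 (mul_mem (_root_.algebraMap_mem _ b) h1)) (_root_.algebraMap_mem _ c)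
      · exact add_mem h1 (_root_.algebraMap_mem _ d)
  have relT : ∀ w : Fin 3 → M, ∑ i, ∑ j, w i * al (A i j) * w j = 0 → w 2 ≠ 0 →
      (w 0 / w 2 + al b * (w 1 / w 2) + al c) ^ 2 - al a0 * (w 1 / w 2 + al d) ^ 2 = al c0 := by
    intro w hw hw2
    have h1 := keyM w hw
    field_simp
    linear_combination h1
  -- the generating point
  have hv2 : v 2 ≠ 0 := by
    intro hv2
    apply hna
    have h1 := keyM v hv
    rw [hv2] at h1
    have halg : ∀ i j : Fin 3, IsAlgebraic K (v i / v j) := by
      by_cases hv1 : v 1 = 0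
      · have hv0 : v 0 = 0 := by
          rw [hv1] at h1
          simpa using h1
        intro i j
        have : v i = 0 := by
          fin_cases i
          · exact hv0
          · exact hv1
          · exact hv2
        rw [this, zero_div]
        exact isAlgebraic_zero
      · have h2 : (v 0 / v 1 + al b) ^ 2 = al a0 := by
          field_simp
          linear_combination h1
        have h3 : IsAlgebraic K (v 0 / v 1) := by
          have h4 : IsAlgebraic K (v 0 / v 1 + al b) := by
            have h5 : IsAlgebraic K ((v 0 / v 1 + al b) ^ 2) := by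
              rw [h2]
              exact isAlgebraic_algebraMap _
            exact h5.of_pow two_pos
          have h6 := h4.sub (isAlgebraic_algebraMap (A := M) b)
          rwa [add_sub_cancel_right] at h6
        have hall : ∀ i : Fin 3, IsAlgebraic K (v i / v 1) := by
          intro i
          fin_cases i
          · exact h3
          · change IsAlgebraic K (v 1 / v 1)
            rw [div_self hv1]
            exact isAlgebraic_one
          · change IsAlgebraic K (v 2 / v 1)
            rw [hv2, zero_div]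
            exact isAlgebraic_zero
        intro i j
        have h5 : v i / v j = (v i / v 1) * (v j / v 1)⁻¹ := by
          rw [← div_eq_mul_inv, div_div_div_cancel_right₀ hv1]
        rw [h5]
        exact (hall i).mul (hall j).inv
    have h3 : Algebra.IsAlgebraic K (adjoin K {z : M | ∃ i j, z = v i / v j}) := by
      apply isAlgebraic_adjoin
      rintro z ⟨i, j, rfl⟩
      exact (halg i j).isIntegral
    rw [hgen] at h3
    exact (topEquiv (F := K) (E := M)).isAlgebraic
  have hT := relT v hv hv2
  have hgen' : adjoin K ({v 0 / v 2 + al b * (v 1 / v 2) + al c, v 1 / v 2 + al d} : Set M) = ⊤ := by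
    rw [← ratio v hv2, hgen]
  have hconst := const_of_algebraic a0 c0 _ _ ha00 hc00 hT hgen' hna
  refine ⟨fun z hz => hconst z hz, ?_⟩
  have hM : ∀ r : M, r ^ 2 ≠ al a0 := by
    intro r hr
    obtain ⟨k, hk⟩ := hconst r (by
      have h5 : IsAlgebraic K (r ^ 2) := by
        rw [hr]
        exact isAlgebraic_algebraMap _
      exact h5.of_pow two_pos)
    rw [hk, ← map_pow] at hr
    have h1 : k ^ 2 = a0 := al.injective hr
    exact one_ne_zero (han0 k 1 0 (by rw [h1]; ring)).2.1
  intro v' hv'0 hv'
  have hv'2 : v' 2 ≠ 0 := by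
    intro h2
    have h1 := keyM v' hv'
    rw [h2] at h1
    by_cases h3 : v' 1 = 0
    · have h4 : v' 0 = 0 := by
        rw [h3] at h1
        simpa using h1
      apply hv'0
      funext i
      fin_cases i
      · exact h4
      · exact h3
      · exact h2
    · apply hM (v' 0 / v' 1 + al b)
      field_simp
      linear_combination h1
  rw [ratio v' hv'2]
  exact odd_conic a0 c0 han0 hM _ _ hT hgen' hna _ _ (relT v' hv' hv'2)

end

end Pool.Agent.Q79.C3
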