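import Pool.Agent.Q79.C3.Ani
import Pool.Agent.Q79.C3.Base2
import Pool.Agent.Q79.C3.Conic
import Pool.Agent.Y201.C3.Main
import Pool.Agent.Y201.LI.Thm3

/-! # Project C3: smooth cubic fourfolds without planes are not dominated by polynomials of degree
at most three -/

set_option autoImplicit false

namespace Pool.Agent.Q79.C3

open MvPolynomial Pool.Agent.TH314.PD Pool.Agent.Y201.C3

theorem hCB : S_CB := Pool.Agent.Y246.C3.cb conic

theorem lineFree {T : Fin 6 → Fin 6 → Fin 6 → ℂ}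
    (hsm : ∀ z : Fin (4 + 2) → ℂ, (∀ i, eval z (pderiv i (frm T)) = 0) → z = 0)
    (hprime : ∀ (a b : ℕ) (A B : MvPolynomial (Fin 6) ℂ), A.IsHomogeneous a →
      B.IsHomogeneous b → frm T ∣ A * B → frm T ∣ A ∨ frm T ∣ B) : LineFree (frm T) :=
  Pool.Agent.Y201.LI.lineFree Pool.Agent.Y201.LI.hT1 _ (frm_hom T) (ne_zero_of_smooth hsm) hsm
    hprime

theorem smoothT {T : Fin 6 → Fin 6 → Fin 6 → ℂ} (hT : SymT T)
    (hsm : ∀ z : Fin (4 + 2) → ℂ, (∀ i, eval z (pderiv i (frm T)) = 0) → z = 0) : SmoothT T := by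
  intro z hz
  apply hsm
  intro i
  rw [ev_ae]
  have h1 := pderiv_frmG (R := ℂ) hT i z
  have h2 : aeval z (pderiv i (frm T)) = 3 * Bg T (fun j => if j = i then 1 else 0) z z := h1
  rw [h2]
  have h3 : Bg T (fun j => if j = i then (1 : ℂ) else 0) z z =
      ∑ j, ∑ k, T i j k * z j * z k := by
    unfold Bg
    rw [Finset.sum_eq_single i]
    · simp
    · intro j _ hj
      simp [hj]
    · intro h
      exact absurd (Finset.mem_univ _) h
  rw [h3, hz, mul_zero]

theorem no_cubic {T : Fin 6 → Fin 6 → Fin 6 → ℂ} (hT : SymT T) (hS : SmoothT T)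
    (hN : NoPlaneT T)
    (hsm : ∀ z : Fin (4 + 2) → ℂ, (∀ i, eval z (pderiv i (frm T)) = 0) → z = 0)
    (N : ℕ) (G : Fin 6 → MvPolynomial (Fin N) ℂ) (hdeg : ∀ i, (G i).totalDegree ≤ 3)
    (hdom : aeval G (frm T) = 0 ∧ ∀ (e : ℕ) (H : MvPolynomial (Fin 6) ℂ), H.IsHomogeneous e →
      aeval G H = 0 → frm T ∣ H) : False := by
  have hF := frm_hom T
  have hF0 : frm T ≠ 0 := ne_zero_of_smooth hsm
  have hLF : LineFree (frm T) := lineFree hsm (Pool.Agent.Y201.LI.prime_of_zero G hdom.1 hdom.2)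
  obtain ⟨c, A, h1, h2⟩ := restrict_exists (n := 4) (d := 3) (by norm_num) hF hF0 G hdom.1 hdom.2
  set G' : Fin 6 → MvPolynomial (Fin 4) ℂ := fun i => aeval (Pool.Agent.TH314.PD.sub c A) (G i) with hG'
  have hdeg' : ∀ i, (G' i).totalDegree ≤ 3 := fun i => aeval_sub_deg c A (G i) (hdeg i)
  obtain ⟨hfd, hb⟩ := bound (n := 4) (d := 3) (k := 3) (by norm_num) (frm T) hF hsm G' hdeg' h1 h2
  let M := FractionRing (MvPolynomial (Fin 4) ℂ)
  let al : MvPolynomial (Fin 4) ℂ →ₐ[ℂ] M := IsScalarTower.toAlgHom ℂ _ M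
  have hal : Function.Injective al := IsFractionRing.injective (MvPolynomial (Fin 4) ℂ) M
  set y : Fin 6 → M := fun i => al (G' i) with hy
  have hfd' : FiniteDimensional (ratioField y) M := hfd
  have hb' : Module.finrank (ratioField y) M * (3 * (3 - 1) ^ 4) ≤ (4 + 1) * (3 - 1) ^ 4 := hb
  have hone : Module.finrank (ratioField y) M = 1 := by
    have h5 : 0 < Module.finrank (ratioField y) M := Module.finrank_pos
    norm_num at hb'
    omega
  have htop : ratioField y = ⊤ := IntermediateField.finrank_eq_one_iff_eq_top.1 hone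
  have htr : Algebra.trdeg ℂ M = 4 := by
    have : Algebra.IsAlgebraic (MvPolynomial (Fin 4) ℂ) (FractionRing (MvPolynomial (Fin 4) ℂ)) :=
      (IsFractionRing.comap_isAlgebraic_iff (K := FractionRing (MvPolynomial (Fin 4) ℂ))).2
        inferInstance
    have h3 := (IsTranscendenceBasis.mvPolynomial (Fin 4) ℂ).algebraMap_comp
      (A := FractionRing (MvPolynomial (Fin 4) ℂ))
    rw [← h3.cardinalMk_eq_trdeg]
    simp
  set s : Fin 5 → M := Fin.cons 1 (fun l => al (X l)) with hs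
  have hsal : ∀ H : MvPolynomial (Fin 5) ℂ, aeval s H =
      al (aeval (Fin.cons 1 X : Fin 5 → MvPolynomial (Fin 4) ℂ) H) := by
    intro H
    have h3 : al.comp (aeval (Fin.cons 1 X : Fin 5 → MvPolynomial (Fin 4) ℂ)) = aeval s := by
      apply algHom_ext
      intro i
      rw [AlgHom.comp_apply, aeval_X, aeval_X, hs]
      refine Fin.cases ?_ (fun l => ?_) i
      · rw [Fin.cons_zero, Fin.cons_zero, map_one]
      · rw [Fin.cons_succ, Fin.cons_succ]
    rw [← h3]
    rfl
  have hs0 : ∀ (e : ℕ) (H : MvPolynomial (Fin 5) ℂ), H.IsHomogeneous e → aeval s H = 0 →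
      H = 0 := by
    intro e H hH h
    rw [hsal] at h
    exact generic_zero H hH (hal (by rw [h, map_zero]))
  have hgen : ratioField s = ⊤ := by
    have h3 : ∀ p : MvPolynomial (Fin 4) ℂ, al p ∈ ratioField s := by
      intro p
      induction p using MvPolynomial.induction_on with
      | C a =>
        have : al (C a) = algebraMap ℂ M a := al.commutes a
        rw [this]
        exact (ratioField s).algebraMap_mem a
      | add f g hf hg =>
        rw [map_add]
        exact add_mem hf hg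
      | mul_X f i hf =>
        rw [map_mul]
        refine mul_mem hf (IntermediateField.subset_adjoin _ _ ⟨i.succ, 0, ?_⟩)
        rw [hs, Fin.cons_succ, Fin.cons_zero, div_one]
    rw [eq_top_iff]
    intro z _
    obtain ⟨a, b, h⟩ := IsFractionRing.div_surjective (A := MvPolynomial (Fin 4) ℂ) z
    rw [← h.2]
    exact div_mem (h3 a) (h3 b)
  choose Gh hGh hGv using fun i => homog3 (G' i) (hdeg' i)
  have hGs : (fun i => aeval s (Gh i)) = y := by
    funext i
    rw [hy]
    simp only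
    rw [hsal, hGv, aeval_X_left_apply]
  have hay : ∀ H : MvPolynomial (Fin 6) ℂ, aeval y H = al (aeval G' H) := by
    intro H
    have : (aeval y : MvPolynomial (Fin 6) ℂ →ₐ[ℂ] M) = al.comp (aeval G') := by
      apply algHom_ext
      intro i
      rw [aeval_X, AlgHom.comp_apply, aeval_X]
    rw [this, AlgHom.comp_apply]
  refine main_hom hCB ani base hT hS hN hLF htr s hs0 hgen Gh hGh ?_ ?_ ?_
  · refine hs0 (3 * 3) _ (hF.aeval _ hGh) ?_
    have h2 : (aeval s).comp (aeval Gh) =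
        (aeval (fun i => aeval s (Gh i)) : MvPolynomial (Fin 6) ℂ →ₐ[ℂ] M) := by
      apply algHom_ext
      intro i
      rw [AlgHom.comp_apply, aeval_X, aeval_X]
    have h3 : aeval s (aeval Gh (frm T)) = aeval (fun i => aeval s (Gh i)) (frm T) := by
      rw [← h2]
      rfl
    rw [h3, hGs, hay, h1, map_zero]
  · intro e H hH h
    rw [hGs, hay] at h
    exact h2 e H hH (hal (by rw [h, map_zero]))
  · rw [hGs, htop]

/-- a cubic form in coordinates -/
theorem exists_T (F : MvPolynomial (Fin 6) ℂ) (hF : F.IsHomogeneous 3) :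
    ∃ T : Fin 6 → Fin 6 → Fin 6 → ℂ, SymT T ∧ F = frm T := exists_tri F hF

theorem noPlaneT {T : Fin 6 → Fin 6 → Fin 6 → ℂ} (hT : SymT T)
    (hN : ∀ v : Fin 3 → Fin 6 → ℂ, LinearIndependent ℂ v →
      ∃ c : Fin 3 → ℂ, eval (∑ i, c i • v i) (frm T) ≠ 0) : NoPlaneT T := by
  intro v hv
  by_contra hcon
  push Not at hcon
  obtain ⟨c, hc⟩ := hN v hv
  apply hc
  rw [ev_ae]
  have h1 : aeval (∑ i, c i • v i) (frm T) =
      Bg T (∑ i, c i • v i) (∑ i, c i • v i) (∑ i, c i • v i) := aeval_frm T _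
  rw [h1]
  have h2 : (∑ i, c i • v i) = fun j => ∑ i, c i * v i j := by
    funext j
    rw [Finset.sum_apply]
    rfl
  rw [h2, Bg_sum1]
  refine Finset.sum_eq_zero fun a _ => ?_
  rw [Bg_smul1, Bg_sum2 hT]
  rw [Finset.sum_eq_zero, mul_zero]
  intro b _
  rw [Bg_smul2, Bg_sum3 hT]
  rw [Finset.sum_eq_zero, mul_zero]
  intro d _
  rw [Bg_smul3]
  have := hcon a b d
  rw [Bf_eq] at this
  rw [this, mul_zero]

end Pool.Agent.Q79.C3
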