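import Mathlib

/-! # Project C3, job CONIC, first part: self-maps of conics without rational points have odd
degree (the polynomial computation) -/

set_option autoImplicit false

namespace Pool.Agent.Q79.C3

open Polynomial IntermediateField

noncomputable section

section Rev

variable {L : Type} [Field L] (σ : L →+* L) (c : L) (e : ℕ)

/-- the polynomial `T ^ e P^σ (c / T)` -/
def rev (P : L[X]) : L[X] := ∑ i ∈ Finset.range (e + 1), C (σ (P.coeff i) * c ^ i) * X ^ (e - i)

theorem coeff_rev (P : L[X]) (j : ℕ) (hj : j ≤ e) :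
    (rev σ c e P).coeff j = σ (P.coeff (e - j)) * c ^ (e - j) := by
  unfold rev
  rw [finsetSum_coeff, Finset.sum_eq_single (e - j)]
  · rw [coeff_C_mul_X_pow, if_pos (by omega)]
  · intro i hi hij
    rw [coeff_C_mul_X_pow, if_neg]
    have := Finset.mem_range.1 hi
    omega
  · intro h
    exact absurd (Finset.mem_range.2 (by omega)) h

theorem natDegree_rev (P : L[X]) : (rev σ c e P).natDegree ≤ e := by
  unfold rev
  refine natDegree_sum_le_of_forall_le _ _ fun i _ => ?_
  refine (natDegree_C_mul_X_pow_le _ _).trans ?_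
  omega

theorem rev_C_mul (u : L) (P : L[X]) : rev σ c e (C u * P) = C (σ u) * rev σ c e P := by
  unfold rev
  rw [Finset.mul_sum]
  refine Finset.sum_congr rfl fun i _ => ?_
  rw [coeff_C_mul, map_mul σ]
  simp only [C_mul]
  ring

theorem rev_rev (hσ : ∀ x, σ (σ x) = x) (hc : σ c = c) (P : L[X]) (hP : P.natDegree ≤ e) :
    rev σ c e (rev σ c e P) = C (c ^ e) * P := by
  ext j
  rw [coeff_C_mul]
  by_cases hj : j ≤ e
  · rw [coeff_rev σ c e _ j hj, coeff_rev σ c e _ (e - j) (by omega)]
    rw [show e - (e - j) = j by omega, map_mul, map_pow, hσ, hc, mul_assoc, ← pow_add,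
      show j + (e - j) = e by omega, mul_comm]
  · rw [coeff_eq_zero_of_natDegree_lt (lt_of_le_of_lt (natDegree_rev σ c e _) (by omega)),
      coeff_eq_zero_of_natDegree_lt (lt_of_le_of_lt hP (by omega)), mul_zero]

theorem aeval_rev {N : Type} [Field N] [Algebra L N] (τ : N →+* N)
    (hτ : ∀ x, τ (algebraMap L N x) = algebraMap L N (σ x)) (t : N) (ht : t ≠ 0)
    (hτt : τ t = algebraMap L N c / t) (P : L[X]) (hP : P.natDegree ≤ e) :
    aeval t (rev σ c e P) = t ^ e * τ (aeval t P) := by
  conv_rhs => rw [aeval_eq_sum_range' (lt_of_le_of_lt hP (Nat.lt_succ_self e))]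
  unfold rev
  rw [map_sum, map_sum, Finset.mul_sum]
  refine Finset.sum_congr rfl fun i hi => ?_
  have hi' := Finset.mem_range.1 hi
  rw [map_mul, map_pow, aeval_C, aeval_X, Algebra.smul_def, map_mul (algebraMap L N), map_mul τ,
    map_pow τ, map_pow, hτ, hτt, div_pow]
  have h1 : t ^ e = t ^ (e - i) * t ^ i := by rw [← pow_add]; congr 1; omega
  rw [h1]
  field_simp

end Rev

/-- **Parity.** -/
theorem parity {L N : Type} [Field L] [Field N] [Algebra L N] (σ : L →+* L) (τ : N →+* N)
    (hσ : ∀ x, σ (σ x) = x) (hτ : ∀ x, τ (algebraMap L N x) = algebraMap L N (σ x))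
    (c : L) (hc0 : c ≠ 0) (hc : σ c = c) (hnorm : ∀ u : L, u * σ u ≠ c)
    (t : N) (ht : Transcendental L t) (hgen : L⟮t⟯ = ⊤) (hτt : τ t = algebraMap L N c / t)
    (g : N) (hg : g * τ g = algebraMap L N c) :
    Odd (Module.finrank L⟮g⟯ N) := by
  classical
  have inj : Function.Injective (algebraMap L N) := (algebraMap L N).injective
  have ht0 : t ≠ 0 := by
    intro h
    exact ht (h ▸ isAlgebraic_zero)
  have hc0' : algebraMap L N c ≠ 0 := (_root_.map_ne_zero _).2 hc0
  let ψ : RatFunc L ≃ₐ[L] N := (RatFunc.algEquivOfTranscendental t ht).trans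
    ((equivOfEq hgen).trans topEquiv)
  have hψ : ∀ f : RatFunc L, ψ f = aeval t f.num / aeval t f.denom := by
    intro f
    change (RatFunc.algEquivOfTranscendental t ht f : N) = _
    rw [RatFunc.algEquivOfTranscendental_apply]
  set f := ψ.symm g with hf
  have hfg : ψ f = g := by rw [hf, AlgEquiv.apply_symm_apply]
  -- the degree
  have hdeg : Module.finrank L⟮g⟯ N = Module.finrank L⟮f⟯ (RatFunc L) := by
    have hmap : L⟮f⟯.map (ψ : RatFunc L →ₐ[L] N) = L⟮g⟯ := by
      rw [adjoin_map, Set.image_singleton]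
      congr 2
    let ι : L⟮f⟯ ≃+* L⟮g⟯ :=
      ((L⟮f⟯.equivMap (ψ : RatFunc L →ₐ[L] N)).trans (equivOfEq hmap)).toRingEquiv
    refine (Algebra.finrank_eq_of_equiv_equiv ι ψ.toRingEquiv ?_).symm
    ext x
    rfl
  rw [hdeg, RatFunc.finrank_eq_max_natDegree]
  set A := f.num with hA
  set B := f.denom with hB
  set e := max A.natDegree B.natDegree with he
  have hcop : IsCoprime A B := f.isCoprime_num_denom
  have hB0 : B ≠ 0 := f.denom_ne_zero
  have hAe : A.natDegree ≤ e := le_max_left _ _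
  have hBe : B.natDegree ≤ e := le_max_right _ _
  have hinj : ∀ P : L[X], aeval t P = 0 → P = 0 := by
    intro P h
    by_contra hP
    exact ht ⟨P, hP, h⟩
  have hBt : aeval t B ≠ 0 := fun h => hB0 (hinj B h)
  have hgAB : g = aeval t A / aeval t B := by rw [← hfg, hψ]
  have hg0 : g ≠ 0 := by
    rintro rfl
    rw [zero_mul] at hg
    exact hc0' hg.symm
  have hA0 : A ≠ 0 := by
    intro h
    rw [h, map_zero, zero_div] at hgAB
    exact hg0 hgAB
  have hAt : aeval t A ≠ 0 := fun h => hA0 (hinj A h)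
  have hτB : τ (aeval t B) ≠ 0 := (_root_.map_ne_zero τ).2 hBt
  have hτA : τ (aeval t A) ≠ 0 := (_root_.map_ne_zero τ).2 hAt
  set A' := rev σ c e A with hA'
  set B' := rev σ c e B with hB'
  have hA't : aeval t A' = t ^ e * τ (aeval t A) := aeval_rev σ c e τ hτ t ht0 hτt A hAe
  have hB't : aeval t B' = t ^ e * τ (aeval t B) := aeval_rev σ c e τ hτ t ht0 hτt B hBe
  have hmain : A * A' = B * (C c * B') := by
    rw [← sub_eq_zero]
    apply hinj
    rw [map_sub, map_mul, map_mul, map_mul, aeval_C, hA't, hB't]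
    have h1 : aeval t A * τ (aeval t A) = algebraMap L N c * (aeval t B * τ (aeval t B)) := by
      rw [hgAB, map_div₀, div_mul_div_comm, div_eq_iff (mul_ne_zero hBt hτB)] at hg
      exact hg
    linear_combination t ^ e * h1
  have hB'0 : B' ≠ 0 := by
    intro h
    rw [h, map_zero] at hB't
    exact (mul_ne_zero (pow_ne_zero _ ht0) hτB) hB't.symm
  have hA'0 : A' ≠ 0 := by
    intro h
    rw [h, map_zero] at hA't
    exact (mul_ne_zero (pow_ne_zero _ ht0) hτA) hA't.symm
  have hdvd : A ∣ B' := by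
    have h1 : A ∣ B * (C c * B') := ⟨A', hmain.symm⟩
    have h2 := hcop.dvd_of_dvd_mul_left h1
    have h3 : IsUnit (C c : L[X]) := isUnit_C.2 (isUnit_iff_ne_zero.2 hc0)
    exact (IsUnit.dvd_mul_left h3).1 h2
  obtain ⟨U, hU⟩ := hdvd
  have hV : A' = B * (C c * U) := by
    have h1 : A * A' = A * (B * (C c * U)) := by
      rw [hmain, hU]
      ring
    exact mul_left_cancel₀ hA0 h1
  have hU0 : U ≠ 0 := by
    rintro rfl
    rw [mul_zero] at hU
    exact hB'0 hU
  have hd1 : A.natDegree + U.natDegree ≤ e := by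
    rw [← natDegree_mul hA0 hU0, ← hU]
    exact natDegree_rev σ c e B
  have hd2 : B.natDegree + U.natDegree ≤ e := by
    rw [← natDegree_C_mul hc0 (p := U), ← natDegree_mul hB0 (mul_ne_zero (by simpa using hc0) hU0), ← hV]
    exact natDegree_rev σ c e A
  have hUd : U.natDegree = 0 := by
    rcases max_choice A.natDegree B.natDegree with h | h
    · rw [← he] at h
      omega
    · rw [← he] at h
      omega
  obtain ⟨u, rfl⟩ : ∃ u, U = C u := ⟨_, eq_C_of_natDegree_eq_zero hUd⟩
  have hu0 : u ≠ 0 := by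
    rintro rfl
    exact hU0 (by rw [C_0])
  have h2 : rev σ c e B' = C (c ^ e) * B := rev_rev σ c e hσ hc B hBe
  have h3 : rev σ c e B' = C (σ u * c * u) * B := by
    rw [hU, mul_comm A, rev_C_mul, ← hA', hV]
    simp only [C_mul]
    ring
  have h4 : c ^ e = σ u * c * u := by
    have h5 : C (c ^ e - σ u * c * u) * B = 0 := by
      rw [C_sub, sub_mul, ← h2, ← h3, sub_self]
    rcases mul_eq_zero.1 h5 with h | h
    · rw [C_eq_zero, sub_eq_zero] at h
      exact h
    · exact absurd h hB0
  by_contra hodd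
  rw [Nat.not_odd_iff_even] at hodd
  obtain ⟨k, hk⟩ := hodd
  have hσu : σ u ≠ 0 := (_root_.map_ne_zero σ).2 hu0
  apply hnorm (c ^ k / u)
  rw [map_div₀, map_pow, hc, div_mul_div_comm, ← pow_add, ← hk, h4]
  field_simp

end

end Pool.Agent.Q79.C3
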