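import Pool.Agent.Q79.C3.Sqrt

/-! # Project C3, job CONIC, third part: the quadratic extension -/

set_option autoImplicit false

namespace Pool.Agent.Q79.C3

open Polynomial IntermediateField

open scoped QuadraticAlgebra

noncomputable section

section

variable {K M : Type} [Field K] [Field M] [Algebra K M] (a c : K)

/-- the inclusion `K(√a) → M(√a)` -/
def inc (M : Type) [Field M] [Algebra K M] :
    QuadraticAlgebra K a 0 →+* QuadraticAlgebra M (algebraMap K M a) 0 where
  toFun z := ⟨algebraMap K M z.re, algebraMap K M z.im⟩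
  map_one' := by ext <;> simp
  map_mul' x y := by ext <;> simp
  map_zero' := by ext <;> simp
  map_add' x y := by ext <;> simp

instance incAlg : Algebra (QuadraticAlgebra K a 0) (QuadraticAlgebra M (algebraMap K M a) 0) :=
  (inc a M).toAlgebra

theorem inc_apply (z : QuadraticAlgebra K a 0) :
    algebraMap (QuadraticAlgebra K a 0) (QuadraticAlgebra M (algebraMap K M a) 0) z =
      ⟨algebraMap K M z.re, algebraMap K M z.im⟩ := rfl

theorem algK_apply (r : K) :
    algebraMap K (QuadraticAlgebra M (algebraMap K M a) 0) r = ⟨algebraMap K M r, 0⟩ := rfl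

instance incTower : IsScalarTower K (QuadraticAlgebra K a 0)
    (QuadraticAlgebra M (algebraMap K M a) 0) :=
  IsScalarTower.of_algebraMap_eq fun r => by
    rw [inc_apply, algK_apply, QuadraticAlgebra.algebraMap_eq, map_zero]

variable [CharZero K] [Fact (∀ r : K, r ^ 2 ≠ a + 0 * r)]
  [Fact (∀ r : M, r ^ 2 ≠ algebraMap K M a + 0 * r)]

omit [CharZero K] [Fact (∀ r : K, r ^ 2 ≠ a + 0 * r)]
  [Fact (∀ r : M, r ^ 2 ≠ algebraMap K M a + 0 * r)] in
theorem star_eq (z : QuadraticAlgebra M (algebraMap K M a) 0) : star z = ⟨z.re, -z.im⟩ := by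
  ext
  · simp [QuadraticAlgebra.re_star]
  · simp [QuadraticAlgebra.im_star]

omit [CharZero K] [Fact (∀ r : K, r ^ 2 ≠ a + 0 * r)]
  [Fact (∀ r : M, r ^ 2 ≠ algebraMap K M a + 0 * r)] in
theorem mul_star' (z : QuadraticAlgebra M (algebraMap K M a) 0) :
    z * star z = ⟨z.re ^ 2 - algebraMap K M a * z.im ^ 2, 0⟩ := by
  rw [star_eq]
  ext
  · simp
    ring
  · simp
    ring

/-- the elements with coordinates in a subfield -/
def box (S : IntermediateField K M) :
    IntermediateField (QuadraticAlgebra K a 0) (QuadraticAlgebra M (algebraMap K M a) 0) where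
  carrier := {n | n.re ∈ S ∧ n.im ∈ S}
  mul_mem' := by
    rintro x y ⟨h1, h2⟩ ⟨h3, h4⟩
    constructor
    · rw [QuadraticAlgebra.re_mul]
      exact add_mem (mul_mem h1 h3) (mul_mem (mul_mem (S.algebraMap_mem a) h2) h4)
    · rw [QuadraticAlgebra.im_mul, zero_mul, zero_mul, add_zero]
      exact add_mem (mul_mem h1 h4) (mul_mem h2 h3)
  add_mem' := by
    rintro x y ⟨h1, h2⟩ ⟨h3, h4⟩
    exact ⟨add_mem h1 h3, add_mem h2 h4⟩
  algebraMap_mem' r := ⟨S.algebraMap_mem _, S.algebraMap_mem _⟩
  inv_mem' := by
    rintro x ⟨h1, h2⟩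
    have h3 : x⁻¹ = ((x.re ^ 2 - algebraMap K M a * x.im ^ 2)⁻¹ : M) • star x := by
      rw [QuadraticAlgebra.inv_def, QuadraticAlgebra.norm_def]
      congr 2
      ring
    have h4 : (x.re ^ 2 - algebraMap K M a * x.im ^ 2)⁻¹ ∈ S :=
      inv_mem (sub_mem (pow_mem h1 2) (mul_mem (S.algebraMap_mem a) (pow_mem h2 2)))
    rw [h3, star_eq]
    constructor
    · rw [QuadraticAlgebra.re_smul, smul_eq_mul]
      exact mul_mem h4 h1
    · rw [QuadraticAlgebra.im_smul, smul_eq_mul]
      exact mul_mem h4 (neg_mem h2)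

variable (hc : c ≠ 0) (T y : M) (h : T ^ 2 - algebraMap K M a * y ^ 2 = algebraMap K M c)

include hc h in
theorem adjoin_eq_box :
    adjoin (QuadraticAlgebra K a 0)
      ({⟨T, y⟩} : Set (QuadraticAlgebra M (algebraMap K M a) 0)) =
        box a (adjoin K ({T, y} : Set M)) := by
  have ha : a ≠ 0 := by
    rintro rfl
    have h1 := (inferInstance : Fact (∀ r : K, r ^ 2 ≠ 0 + 0 * r)).out 0
    simp at h1
  have h2M : (2 : M) ≠ 0 := by
    have h1 : ((2 : K) : K) ≠ 0 := two_ne_zero
    have h3 := (_root_.map_ne_zero (algebraMap K M)).2 h1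
    rwa [map_ofNat] at h3
  have ha' : algebraMap K M a ≠ 0 := (_root_.map_ne_zero _).2 ha
  apply le_antisymm
  · rw [adjoin_le_iff, Set.singleton_subset_iff]
    exact ⟨subset_adjoin _ _ (Set.mem_insert _ _),
      subset_adjoin _ _ (Set.mem_insert_of_mem _ rfl)⟩
  · set F := adjoin (QuadraticAlgebra K a 0)
      ({⟨T, y⟩} : Set (QuadraticAlgebra M (algebraMap K M a) 0)) with hF
    have hg : (⟨T, y⟩ : QuadraticAlgebra M (algebraMap K M a) 0) ∈ F :=
      subset_adjoin _ _ rfl
    have hgs : (star ⟨T, y⟩ : QuadraticAlgebra M (algebraMap K M a) 0) ∈ F := by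
      have h1 : (⟨T, y⟩ : QuadraticAlgebra M (algebraMap K M a) 0) * star ⟨T, y⟩ =
          algebraMap (QuadraticAlgebra K a 0) _ (algebraMap K _ c) := by
        rw [mul_star', h, inc_apply, QuadraticAlgebra.algebraMap_eq, map_zero]
      have h0 : (⟨T, y⟩ : QuadraticAlgebra M (algebraMap K M a) 0) ≠ 0 := by
        intro h0
        rw [h0, zero_mul] at h1
        have h3 := congrArg QuadraticAlgebra.re h1
        rw [inc_apply] at h3
        exact hc ((_root_.map_eq_zero (algebraMap K M)).1 h3.symm)
      have h3 : (star ⟨T, y⟩ : QuadraticAlgebra M (algebraMap K M a) 0) =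
          algebraMap (QuadraticAlgebra K a 0) _ (algebraMap K _ c) * (⟨T, y⟩)⁻¹ := by
        rw [← h1]
        field_simp
      rw [h3]
      exact mul_mem (F.algebraMap_mem _) (inv_mem hg)
    have hω : (⟨0, 1⟩ : QuadraticAlgebra M (algebraMap K M a) 0) ∈ F := by
      have h1 := F.algebraMap_mem (⟨0, 1⟩ : QuadraticAlgebra K a 0)
      rw [inc_apply] at h1
      simpa using h1
    have hK : ∀ k : K, (⟨algebraMap K M k, 0⟩ : QuadraticAlgebra M (algebraMap K M a) 0) ∈ F := by
      intro k
      have h1 := F.algebraMap_mem (⟨k, 0⟩ : QuadraticAlgebra K a 0)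
      rw [inc_apply] at h1
      simpa using h1
    -- the elements of `M` in `F`
    have hle : adjoin K ({T, y} : Set M) ≤ (F.restrictScalars K).comap
        (IsScalarTower.toAlgHom K M (QuadraticAlgebra M (algebraMap K M a) 0)) := by
      rw [adjoin_le_iff]
      rintro z (rfl | rfl)
      · change (⟨z, 0⟩ : QuadraticAlgebra M (algebraMap K M a) 0) ∈ F
        have h1 : (⟨z, 0⟩ : QuadraticAlgebra M (algebraMap K M a) 0) =
            (⟨algebraMap K M 2⁻¹, 0⟩) * (⟨z, y⟩ + star ⟨z, y⟩) := by
          rw [star_eq]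
          have h5 : algebraMap K M 2⁻¹ = 2⁻¹ := by rw [map_inv₀, map_ofNat]
          rw [h5]
          ext
          · simp
            field_simp
            ring
          · simp
        rw [h1]
        exact mul_mem (hK _) (add_mem hg hgs)
      · change (⟨z, 0⟩ : QuadraticAlgebra M (algebraMap K M a) 0) ∈ F
        have h1 : (⟨z, 0⟩ : QuadraticAlgebra M (algebraMap K M a) 0) =
            (⟨algebraMap K M (2 * a)⁻¹, 0⟩) * (⟨0, 1⟩ * (⟨T, z⟩ - star ⟨T, z⟩)) := by
          rw [star_eq]
          have h5 : algebraMap K M (2 * a)⁻¹ = (2 * algebraMap K M a)⁻¹ := by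
            rw [map_inv₀, map_mul, map_ofNat]
          rw [h5]
          ext
          · simp
            field_simp
            ring
          · simp
        rw [h1]
        exact mul_mem (hK _) (mul_mem hω (sub_mem hg hgs))
    rintro n ⟨h1, h2⟩
    have h3 : n = (⟨n.re, 0⟩ : QuadraticAlgebra M (algebraMap K M a) 0) + ⟨n.im, 0⟩ * ⟨0, 1⟩ := by
      ext <;> simp
    rw [h3]
    exact add_mem (hle h1) (mul_mem (hle h2) hω)

include hc h in
/-- the degrees -/
theorem finrank_box : Module.finrank (adjoin (QuadraticAlgebra K a 0)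
      ({⟨T, y⟩} : Set (QuadraticAlgebra M (algebraMap K M a) 0)))
        (QuadraticAlgebra M (algebraMap K M a) 0) =
    Module.finrank (adjoin K ({T, y} : Set M)) M := by
  rw [adjoin_eq_box a c hc T y h]
  set S := adjoin K ({T, y} : Set M) with hS
  -- the tower
  let j : S →+* box a S :=
    { toFun := fun k => ⟨⟨(k : M), 0⟩, k.2, S.zero_mem⟩
      map_one' := by
        apply Subtype.ext
        rfl
      map_zero' := rfl
      map_add' := fun x y => by
        apply Subtype.ext
        ext <;> simp
      map_mul' := fun x y => by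
        apply Subtype.ext
        ext <;> simp }
  let _ : Algebra S (box a S) := j.toAlgebra
  have hj : ∀ k : S, algebraMap S (box a S) k = ⟨⟨(k : M), 0⟩, k.2, S.zero_mem⟩ := fun k => rfl
  have : IsScalarTower S (box a S) (QuadraticAlgebra M (algebraMap K M a) 0) :=
    IsScalarTower.of_algebraMap_eq fun k => rfl
  have h1 : Module.finrank S (box a S) * Module.finrank (box a S)
      (QuadraticAlgebra M (algebraMap K M a) 0) =
      Module.finrank S (QuadraticAlgebra M (algebraMap K M a) 0) :=
    Module.finrank_mul_finrank _ _ _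
  have h2 : Module.finrank S M * Module.finrank M (QuadraticAlgebra M (algebraMap K M a) 0) =
      Module.finrank S (QuadraticAlgebra M (algebraMap K M a) 0) :=
    Module.finrank_mul_finrank _ _ _
  have h3 : Module.finrank S (box a S) = 2 := by
    let E : QuadraticAlgebra S (algebraMap K S a) 0 ≃ₗ[S] box a S :=
      { toFun := fun z => ⟨⟨(z.re : M), (z.im : M)⟩, z.re.2, z.im.2⟩
        invFun := fun n => ⟨⟨n.1.re, n.2.1⟩, ⟨n.1.im, n.2.2⟩⟩
        map_add' := fun x y => by
          apply Subtype.ext
          ext <;> simp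
        map_smul' := fun k x => by
          apply Subtype.ext
          have h5 : ∀ n : box a S, ((k • n : box a S) :
              QuadraticAlgebra M (algebraMap K M a) 0) = (⟨(k : M), 0⟩) * n.1 := fun n => by
            rw [Algebra.smul_def]
            rfl
          refine Eq.trans ?_ (h5 _).symm
          ext <;> simp
        left_inv := fun z => by
          ext <;> rfl
        right_inv := fun n => by
          apply Subtype.ext
          rfl }
    rw [← E.finrank_eq, QuadraticAlgebra.finrank_eq_two]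
  rw [QuadraticAlgebra.finrank_eq_two] at h2
  rw [h3] at h1
  omega

end

/-- the function field of an anisotropic conic -/
theorem odd_conic {K M : Type} [Field K] [CharZero K] [Field M] [Algebra K M] (a c : K)
    (han : ∀ x y z : K, x ^ 2 - a * y ^ 2 = c * z ^ 2 → x = 0 ∧ y = 0 ∧ z = 0)
    (hM : ∀ r : M, r ^ 2 ≠ algebraMap K M a) (T y : M)
    (h : T ^ 2 - algebraMap K M a * y ^ 2 = algebraMap K M c)
    (hgen : adjoin K ({T, y} : Set M) = ⊤) (hna : ¬ Algebra.IsAlgebraic K M)
    (T' y' : M) (h' : T' ^ 2 - algebraMap K M a * y' ^ 2 = algebraMap K M c) :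
    Odd (Module.finrank (adjoin K ({T', y'} : Set M)) M) := by
  have hc : c ≠ 0 := by
    rintro rfl
    have := (han 0 0 1 (by ring)).2.2
    exact one_ne_zero this
  have ha : a ≠ 0 := by
    rintro rfl
    have := (han 0 1 0 (by ring)).2.1
    exact one_ne_zero this
  have hK : Fact (∀ r : K, r ^ 2 ≠ a + 0 * r) := ⟨fun r hr => by
    have := (han r 1 0 (by rw [hr]; ring)).2.1
    exact one_ne_zero this⟩
  have hM' : Fact (∀ r : M, r ^ 2 ≠ algebraMap K M a + 0 * r) := ⟨fun r hr => by
    apply hM r
    rw [hr]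
    ring⟩
  have hT : Transcendental K T := trans_T a c T y ha h hgen hna
  rw [← finrank_box a c hc T' y' h']
  have hcc : ∀ z : QuadraticAlgebra M (algebraMap K M a) 0,
      z.re ^ 2 - algebraMap K M a * z.im ^ 2 = algebraMap K M c →
      z * star z = algebraMap (QuadraticAlgebra K a 0) _ (algebraMap K _ c) := by
    intro z hz
    rw [mul_star', hz, inc_apply, QuadraticAlgebra.algebraMap_eq, map_zero]
  have ht0 : (⟨T, y⟩ : QuadraticAlgebra M (algebraMap K M a) 0) ≠ 0 := by
    intro h0
    have h1 := congrArg QuadraticAlgebra.re h0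
    exact hT (by rw [show T = 0 from h1]; exact isAlgebraic_zero)
  refine parity (starRingEnd (QuadraticAlgebra K a 0))
    (starRingEnd (QuadraticAlgebra M (algebraMap K M a) 0)) (fun x => by simp) ?_
    (algebraMap K _ c) ?_ ?_ ?_ ⟨T, y⟩ ?_ ?_ ?_ ⟨T', y'⟩ (hcc _ h')
  · intro x
    rw [starRingEnd_apply, starRingEnd_apply, star_eq, inc_apply, inc_apply]
    ext
    · simp [QuadraticAlgebra.re_star]
    · simp [QuadraticAlgebra.im_star]
  · exact (_root_.map_ne_zero _).2 hc
  · rw [starRingEnd_apply]
    ext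
    · simp [QuadraticAlgebra.re_star]
    · simp [QuadraticAlgebra.im_star]
  · intro u hu
    rw [starRingEnd_apply] at hu
    have h1 := congrArg QuadraticAlgebra.re hu
    simp only [QuadraticAlgebra.re_mul, QuadraticAlgebra.re_star, QuadraticAlgebra.im_star,
      QuadraticAlgebra.algebraMap_re] at h1
    have h2 := (han u.re u.im 1 (by rw [← h1]; ring)).2.2
    exact one_ne_zero h2
  · -- transcendence
    intro halg
    have hLK : Algebra.IsAlgebraic K (QuadraticAlgebra K a 0) := Algebra.IsAlgebraic.of_finite _ _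
    have h1 : IsAlgebraic K (⟨T, y⟩ : QuadraticAlgebra M (algebraMap K M a) 0) :=
      halg.restrictScalars K
    have h2 : IsAlgebraic K (star ⟨T, y⟩ : QuadraticAlgebra M (algebraMap K M a) 0) := by
      have h3 : (star ⟨T, y⟩ : QuadraticAlgebra M (algebraMap K M a) 0) =
          algebraMap K _ c * (⟨T, y⟩)⁻¹ := by
        have h4 := hcc ⟨T, y⟩ h
        rw [← IsScalarTower.algebraMap_apply] at h4
        rw [← h4]
        field_simp
      rw [h3]
      exact (isAlgebraic_algebraMap c).mul h1.inv
    have h3 : IsAlgebraic K (algebraMap M (QuadraticAlgebra M (algebraMap K M a) 0) (2 * T)) := by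
      have h4 : algebraMap M (QuadraticAlgebra M (algebraMap K M a) 0) (2 * T) =
          ⟨T, y⟩ + star ⟨T, y⟩ := by
        rw [star_eq, QuadraticAlgebra.algebraMap_eq]
        ext
        · simp
          ring
        · simp
      rw [h4]
      exact h1.add h2
    have h4 : IsAlgebraic K (2 * T) :=
      (isAlgebraic_algebraMap_iff (QuadraticAlgebra.algebraMap_injective)).1 h3
    apply hT
    have h5 : T = algebraMap K M 2⁻¹ * (2 * T) := by
      have h2M : (2 : M) ≠ 0 := by
        have h1 : ((2 : K) : K) ≠ 0 := two_ne_zero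
        have h3 := (_root_.map_ne_zero (algebraMap K M)).2 h1
        rwa [map_ofNat] at h3
      rw [map_inv₀, map_ofNat]
      field_simp
    rw [h5]
    exact (isAlgebraic_algebraMap _).mul h4
  · rw [adjoin_eq_box a c hc T y h, hgen, eq_top_iff]
    intro n _
    exact ⟨trivial, trivial⟩
  · rw [eq_div_iff ht0, starRingEnd_apply, mul_comm]
    exact hcc _ h

end

end Pool.Agent.Q79.C3
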