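import Pool.Agent.Q79.C3.Parity

/-! # Project C3, job CONIC, second part: constants of the function field of a conic -/

set_option autoImplicit false

namespace Pool.Agent.Q79.C3

open Polynomial IntermediateField

noncomputable section

theorem nosqrt {L Ω : Type} [Field L] [CharZero L] [Field Ω] [Algebra L Ω] (T : Ω)
    (hT : Transcendental L T) (a c : L) (hc : c ≠ 0) (y : Ω) (hy : y ∈ L⟮T⟯)
    (h : T ^ 2 - algebraMap L Ω a * y ^ 2 = algebraMap L Ω c) : False := by
  classical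
  set f : RatFunc L := (RatFunc.algEquivOfTranscendental T hT).symm ⟨y, hy⟩ with hf
  have hfy : aeval T f.num / aeval T f.denom = y := by
    rw [← RatFunc.algEquivOfTranscendental_apply T hT f, hf, AlgEquiv.apply_symm_apply]
  have hB0 : f.denom ≠ 0 := f.denom_ne_zero
  have hinj : ∀ P : L[X], aeval T P = 0 → P = 0 := by
    intro P h
    by_contra hP
    exact hT ⟨P, hP, h⟩
  have hBt : aeval T f.denom ≠ 0 := fun h => hB0 (hinj _ h)
  set p : L[X] := X ^ 2 - C c with hp
  have hpd : p.natDegree = 2 := natDegree_X_pow_sub_C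
  have hp0 : p ≠ 0 := by
    intro h
    rw [h, natDegree_zero] at hpd
    omega
  have hsq : Squarefree p := by
    have h2 : ((2 : ℕ) : L) ≠ 0 := by norm_num
    exact (separable_X_pow_sub_C c h2 hc).squarefree
  have hpu : ¬ IsUnit p := by
    intro h
    have := natDegree_eq_zero_of_isUnit h
    omega
  have hmain : p * f.denom ^ 2 = C a * f.num ^ 2 := by
    rw [← sub_eq_zero]
    apply hinj
    rw [hp]
    simp only [map_sub, map_mul, map_pow, aeval_X, aeval_C]
    rw [← hfy] at h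
    field_simp at h
    linear_combination h
  have ha : a ≠ 0 := by
    rintro rfl
    rw [C_0, zero_mul] at hmain
    exact (mul_ne_zero hp0 (pow_ne_zero 2 hB0)) hmain
  have hCa : IsUnit (C a : L[X]) := isUnit_C.2 (isUnit_iff_ne_zero.2 ha)
  have h1 : p ∣ f.num := by
    have h2 : p ∣ f.num ^ 2 := (IsUnit.dvd_mul_left hCa).1 ⟨_, hmain.symm⟩
    exact (hsq.dvd_pow_iff_dvd two_ne_zero).1 h2
  obtain ⟨A, hA⟩ := h1
  have h2 : p ∣ f.denom := by
    have h3 : f.denom ^ 2 = p * (C a * A ^ 2) := by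
      have h4 : p * f.denom ^ 2 = p * (p * (C a * A ^ 2)) := by
        rw [hmain, hA]
        ring
      exact mul_left_cancel₀ hp0 h4
    exact (hsq.dvd_pow_iff_dvd two_ne_zero).1 ⟨_, h3⟩
  exact hpu (f.isCoprime_num_denom.isUnit_of_dvd' ⟨A, hA⟩ h2)

section

variable {K M : Type} [Field K] [CharZero K] [Field M] [Algebra K M] (a c : K) (T y : M)

omit [CharZero K] in
theorem trans_T (ha : a ≠ 0) (h : T ^ 2 - algebraMap K M a * y ^ 2 = algebraMap K M c)
    (hgen : adjoin K ({T, y} : Set M) = ⊤) (hna : ¬ Algebra.IsAlgebraic K M) :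
    Transcendental K T := by
  intro hT
  apply hna
  have ha' : algebraMap K M a ≠ 0 := (_root_.map_ne_zero _).2 ha
  have hTi : IsIntegral K T := hT.isIntegral
  have hyi : IsIntegral K y := by
    have h1 : IsIntegral K (y ^ 2) := by
      have h2 : y ^ 2 = (T ^ 2 - algebraMap K M c) * algebraMap K M a⁻¹ := by
        rw [map_inv₀]
        field_simp
        linear_combination -h
      rw [h2]
      exact ((hTi.pow 2).sub isIntegral_algebraMap).mul isIntegral_algebraMap
    exact h1.of_pow two_pos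
  have h3 : Algebra.IsAlgebraic K (adjoin K ({T, y} : Set M)) := by
    apply isAlgebraic_adjoin
    rintro z (rfl | rfl)
    · exact hTi
    · exact hyi
  rw [hgen] at h3
  exact (topEquiv (F := K) (E := M)).isAlgebraic

theorem const_of_algebraic (ha : a ≠ 0) (hc : c ≠ 0)
    (h : T ^ 2 - algebraMap K M a * y ^ 2 = algebraMap K M c)
    (hgen : adjoin K ({T, y} : Set M) = ⊤) (hna : ¬ Algebra.IsAlgebraic K M) (z : M)
    (hz : IsAlgebraic K z) : ∃ b : K, z = algebraMap K M b := by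
  classical
  have hT : Transcendental K T := trans_T a c T y ha h hgen hna
  have ha' : algebraMap K M a ≠ 0 := (_root_.map_ne_zero _).2 ha
  by_contra hcon
  push Not at hcon
  have hzF : z ∉ K⟮T⟯ := by
    intro hzF
    set f : RatFunc K := (RatFunc.algEquivOfTranscendental T hT).symm ⟨z, hzF⟩ with hf
    by_cases hfc : ∃ b, f = RatFunc.C b
    · obtain ⟨b, hb⟩ := hfc
      apply hcon b
      have h1 : RatFunc.algEquivOfTranscendental T hT f = ⟨z, hzF⟩ := by
        rw [hf, AlgEquiv.apply_symm_apply]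
      have h2 : f = algebraMap K (RatFunc K) b := by rw [hb]; rfl
      rw [h2, AlgEquiv.commutes] at h1
      exact (congrArg Subtype.val h1).symm
    · refine RatFunc.transcendental_of_ne_C f hfc ?_
      rw [hf]
      have h1 : IsAlgebraic K (⟨z, hzF⟩ : K⟮T⟯) :=
        (isAlgebraic_algebraMap_iff (A := M) (algebraMap K⟮T⟯ M).injective).1 hz
      exact h1.algHom ((RatFunc.algEquivOfTranscendental T hT).symm : K⟮T⟯ →ₐ[K] RatFunc K)
  -- `M` has degree at most two over `K(T)`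
  have hTF : T ∈ K⟮T⟯ := mem_adjoin_simple_self K T
  have hgen1 : (K⟮T⟯)⟮y⟯ = ⊤ := by
    have h1 : ((K⟮T⟯)⟮y⟯).restrictScalars K = ⊤ := by
      rw [adjoin_simple_adjoin_simple, hgen]
    exact restrictScalars_eq_top_iff.1 h1
  let q : K⟮T⟯[X] := X ^ 2 - C ((⟨T, hTF⟩ ^ 2 - algebraMap K K⟮T⟯ c) / algebraMap K K⟮T⟯ a)
  have hqd : q.natDegree = 2 := natDegree_X_pow_sub_C
  have hqm : q.Monic := monic_X_pow_sub_C _ two_ne_zero
  have hqy : aeval y q = 0 := by
    simp only [q, map_sub, map_pow, aeval_X, aeval_C]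
    change y ^ 2 - (T ^ 2 - algebraMap K M c) / algebraMap K M a = 0
    field_simp
    linear_combination -h
  have hyi : IsIntegral K⟮T⟯ y := ⟨q, hqm, by rw [← hqy]; rfl⟩
  have hfin : FiniteDimensional K⟮T⟯ (K⟮T⟯)⟮y⟯ := adjoin.finiteDimensional hyi
  have hfr : Module.finrank K⟮T⟯ (K⟮T⟯)⟮y⟯ ≤ 2 := by
    rw [adjoin.finrank hyi, ← hqd]
    exact natDegree_le_of_dvd (minpoly.dvd _ _ hqy) hqm.ne_zero
  have hfinM : FiniteDimensional K⟮T⟯ M := by
    rw [hgen1] at hfin
    exact Module.Finite.equiv (topEquiv (F := K⟮T⟯) (E := M)).toLinearEquiv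
  have hfrM : Module.finrank K⟮T⟯ M ≤ 2 := by
    rw [hgen1, finrank_top'] at hfr
    exact hfr
  have hz2 : (K⟮T⟯)⟮z⟯ = ⊤ := by
    have h1 : Module.finrank K⟮T⟯ (K⟮T⟯)⟮z⟯ ≠ 1 := by
      intro h1
      rw [IntermediateField.finrank_eq_one_iff, adjoin_simple_eq_bot_iff] at h1
      obtain ⟨b, hb⟩ := mem_bot.1 h1
      exact hzF (hb ▸ b.2)
    have h2 : 0 < Module.finrank K⟮T⟯ (K⟮T⟯)⟮z⟯ := Module.finrank_pos
    have h3 : Module.finrank K⟮T⟯ (K⟮T⟯)⟮z⟯ * Module.finrank (K⟮T⟯)⟮z⟯ M =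
        Module.finrank K⟮T⟯ M := Module.finrank_mul_finrank _ _ _
    have h4 : 0 < Module.finrank (K⟮T⟯)⟮z⟯ M := by
      have : FiniteDimensional (K⟮T⟯)⟮z⟯ M := Module.Finite.of_restrictScalars_finite K⟮T⟯ _ _
      exact Module.finrank_pos
    have h5 : Module.finrank (K⟮T⟯)⟮z⟯ M = 1 := by
      have h6 : 2 * Module.finrank (K⟮T⟯)⟮z⟯ M ≤ 2 * 1 := by
        calc 2 * Module.finrank (K⟮T⟯)⟮z⟯ M ≤
            Module.finrank K⟮T⟯ (K⟮T⟯)⟮z⟯ * Module.finrank (K⟮T⟯)⟮z⟯ M :=
              Nat.mul_le_mul_right _ (by omega)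
          _ ≤ 2 := by rw [h3]; exact hfrM
      omega
    exact finrank_eq_one_iff_eq_top.1 h5
  have hy : y ∈ (K⟮z⟯)⟮T⟯ := by
    have h1 : ((K⟮z⟯)⟮T⟯).restrictScalars K = ((K⟮T⟯)⟮z⟯).restrictScalars K := by
      rw [adjoin_simple_adjoin_simple, adjoin_simple_adjoin_simple, Set.pair_comm]
    have h2 : y ∈ ((K⟮T⟯)⟮z⟯).restrictScalars K := by
      rw [hz2]
      trivial
    rw [← h1] at h2
    exact h2
  have hTz : Transcendental K⟮z⟯ T := by
    intro h1
    apply hT
    have : Algebra.IsAlgebraic K K⟮z⟯ := isAlgebraic_adjoin_simple hz.isIntegral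
    exact h1.restrictScalars K
  refine nosqrt T hTz (algebraMap K K⟮z⟯ a) (algebraMap K K⟮z⟯ c)
    ((_root_.map_ne_zero _).2 hc) y hy ?_
  rw [← IsScalarTower.algebraMap_apply, ← IsScalarTower.algebraMap_apply]
  exact h

end

end

end Pool.Agent.Q79.C3
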